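import Pool.Agent.H82.BK.Real

/-!
# RealG: from `ℝ≥0∞` back to the operator, with an absorption term; integrability of `g |v-z|^γ`
-/

set_option autoImplicit false

open MeasureTheory Set Filter Topology Pool.Agent.H25.Kin Pool.Agent.H82.BK
open scoped ENNReal

namespace Pool.Agent.H82.CM

variable {d : ℕ}

private lemma Real_len_rpow_le {μ : ℝ} (hμ : μ ≤ 0) (z : Vec d) : len z ^ μ ≤ ‖z‖ ^ μ := by
  by_cases hz : z = 0
  · rw [hz, len_zero, norm_zero]
  · exact Real.rpow_le_rpow_of_nonpos (norm_pos_iff.2 hz) (norm_le_len z) hμ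

private lemma Real_term2 (hd : 2 ≤ d) {g : Vec d → ℝ} (hg : Nice g) {μ : ℝ} (h1 : -2 < μ)
    (h2 : μ ≤ 0) (v : Vec d) : Integrable fun z : Vec d => g z * len (v - z) ^ μ := by
  obtain ⟨K, hK0, hK⟩ := hg.rd.bound (d + 3)
  have i1 := ((int_norm_rpow hd h1 h2).comp_sub_left v).const_mul (K * (1 + ‖v‖) ^ (d + 3))
  have hm : Measurable fun z : Vec d => g z * len (v - z) ^ μ :=
    hg.cont.measurable.mul
      ((continuous_len.comp (continuous_const.sub continuous_id)).measurable.pow_const μ)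
  refine i1.mono' hm.aestronglyMeasurable (Eventually.of_forall fun z => ?_)
  have hl := Real.rpow_nonneg (len_nonneg (v - z)) μ
  have hnn := Real.rpow_nonneg (norm_nonneg (v - z)) μ
  have hw := w_pos (v - z)
  have hv := w_pos v
  have hz := w_pos z
  rw [norm_mul, Real.norm_eq_abs (len (v - z) ^ μ), abs_of_nonneg hl]
  have e1 : ((1 + ‖z‖) ^ (d + 3))⁻¹ ≤ (1 + ‖v‖) ^ (d + 3) * ((1 + ‖v - z‖) ^ (d + 3))⁻¹ := by
    have e2 : (1 + ‖v - z‖) ^ (d + 3) ≤ (1 + ‖v‖) ^ (d + 3) * (1 + ‖z‖) ^ (d + 3) := by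
      rw [← mul_pow]
      exact pow_le_pow_left₀ hw.le (w_sub_le v z) _
    rw [inv_eq_one_div, div_le_iff₀ (pow_pos hz _), mul_assoc, mul_comm ((1 + ‖v - z‖) ^ (d + 3))⁻¹,
      ← mul_assoc, ← div_eq_mul_inv, le_div_iff₀ (pow_pos hw _), one_mul]
    exact e2
  calc ‖g z‖ * len (v - z) ^ μ ≤ (K * ((1 + ‖z‖) ^ (d + 3))⁻¹) * ‖v - z‖ ^ μ :=
        mul_le_mul (hK z) (Real_len_rpow_le h2 _) hl
          (mul_nonneg hK0 (inv_nonneg.2 (pow_nonneg hz.le _)))
    _ ≤ (K * ((1 + ‖v‖) ^ (d + 3) * ((1 + ‖v - z‖) ^ (d + 3))⁻¹)) * ‖v - z‖ ^ μ := by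
        gcongr
    _ = K * (1 + ‖v‖) ^ (d + 3) * (‖v - z‖ ^ μ * ((1 + ‖v - z‖) ^ (d + 3))⁻¹) := by ring

private lemma Real_int {γ s : ℝ} {b : ℝ → ℝ} {C Ca : ℝ} (H : Hyp d γ s b C Ca) {ε : ℝ}
    (hε : 0 < ε) (v : Vec d) {P : Vec d × Vec d → ℝ} (hP : Measurable P) {A : ℝ} (hA : 0 ≤ A)
    (hb : ∀ w σ, nsq σ = 1 → |P (w, σ)| ≤ A * pw (0 + (d + 5)) v w) :
    Integrable (fun q : Vec d × Vec d => kerB γ b ε v q.1 q.2 * P q)
      ((volume : Measure (Vec d)).prod (surf d)) := by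
  have i1 : Integrable (fun q : Vec d × Vec d => kg γ (v - q.1) * 1)
      ((volume : Measure (Vec d)).prod (surf d)) :=
    ((kg_integrable H.hd H.g1 H.g2).comp_sub_left v).mul_prod (integrable_const (1 : ℝ))
  have i2 := i1.const_mul (C * ε ^ (-(((d : ℝ) - 1) / 2 + s)) * A)
  have mk : Measurable fun q : Vec d × Vec d => kerB γ b ε v q.1 q.2 :=
    (measurable_kerB γ H.bm ε).comp
      (measurable_const.prodMk (measurable_fst.prodMk measurable_snd))
  refine i2.mono' (mk.mul hP).aestronglyMeasurable ?_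
  have hae : ∀ᵐ q ∂((volume : Measure (Vec d)).prod (surf d)), nsq q.2 = 1 :=
    (Measure.quasiMeasurePreserving_snd).ae surf_ae
  filter_upwards [hae] with q hq
  obtain ⟨w, σ⟩ := q
  have hσ : nsq σ = 1 := hq
  have hε' := Real.rpow_nonneg hε.le (-(((d : ℝ) - 1) / 2 + s))
  have hC0 := H.bd.1
  have a0 := kerB_nonneg (γ := γ) H.bd hε (v := v) (w := w) hσ
  have a1 := kerB_le_eps (γ := γ) H.bd H.β0 hε (v := v) (w := w) hσ
  have a2 := hb w σ hσ
  have hl := Real.rpow_nonneg (len_nonneg (v - w)) γ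
  have hp := pw_nonneg (0 + (d + 5)) v w
  have hs := sq_nonneg' (v - w)
  have hk := kg_bound γ 0 v w
  rw [norm_mul, Real.norm_eq_abs, Real.norm_eq_abs, abs_of_nonneg a0]
  calc kerB γ b ε v w σ * |P (w, σ)|
      ≤ (C * ε ^ (-(((d : ℝ) - 1) / 2 + s)) * len (v - w) ^ γ) * (A * pw (0 + (d + 5)) v w) :=
        mul_le_mul a1 a2 (abs_nonneg _) (by positivity)
    _ = C * ε ^ (-(((d : ℝ) - 1) / 2 + s)) * A * (len (v - w) ^ γ * 1 * pw (0 + (d + 5)) v w) := by
        ring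
    _ ≤ C * ε ^ (-(((d : ℝ) - 1) / 2 + s)) * A *
        (len (v - w) ^ γ * (1 + nsq (v - w)) * pw (0 + (d + 5)) v w) := by
        gcongr
        linarith
    _ ≤ C * ε ^ (-(((d : ℝ) - 1) / 2 + s)) * A * (((1 + ‖v‖) ^ 0)⁻¹ * kg γ (v - w)) := by
        gcongr
    _ = C * ε ^ (-(((d : ℝ) - 1) / 2 + s)) * A * (kg γ (v - w) * 1) := by
        rw [pow_zero, inv_one, one_mul, mul_one]

private lemma Real_toReal {γ s : ℝ} {b : ℝ → ℝ} {C Ca : ℝ} (H : Hyp d γ s b C Ca) {ε : ℝ}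
    (hε : 0 < ε) (v : Vec d) {P : Vec d × Vec d → ℝ} (hP : Measurable P) (hP0 : ∀ q, 0 ≤ P q)
    (hi : Integrable (fun q : Vec d × Vec d => kerB γ b ε v q.1 q.2 * P q)
      ((volume : Measure (Vec d)).prod (surf d))) :
    (∫⁻ w, ∫⁻ σ, ENNReal.ofReal (kerB γ b ε v w σ * P (w, σ)) ∂(surf d)) ≠ ⊤ ∧
    ∫ q, kerB γ b ε v q.1 q.2 * P q ∂((volume : Measure (Vec d)).prod (surf d)) =
      (∫⁻ w, ∫⁻ σ, ENNReal.ofReal (kerB γ b ε v w σ * P (w, σ)) ∂(surf d)).toReal := by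
  have mk : Measurable fun q : Vec d × Vec d => kerB γ b ε v q.1 q.2 :=
    (measurable_kerB γ H.bm ε).comp
      (measurable_const.prodMk (measurable_fst.prodMk measurable_snd))
  have hae : ∀ᵐ q ∂((volume : Measure (Vec d)).prod (surf d)), nsq q.2 = 1 :=
    (Measure.quasiMeasurePreserving_snd).ae surf_ae
  have hnn : 0 ≤ᵐ[(volume : Measure (Vec d)).prod (surf d)]
      fun q : Vec d × Vec d => kerB γ b ε v q.1 q.2 * P q := by
    filter_upwards [hae] with q hq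
    exact mul_nonneg (kerB_nonneg H.bd hε hq) (hP0 q)
  have e1 : (∫⁻ w, ∫⁻ σ, ENNReal.ofReal (kerB γ b ε v w σ * P (w, σ)) ∂(surf d)) =
      ∫⁻ q, ENNReal.ofReal (kerB γ b ε v q.1 q.2 * P q)
        ∂((volume : Measure (Vec d)).prod (surf d)) := by
    have hm : Measurable fun q : Vec d × Vec d =>
        ENNReal.ofReal (kerB γ b ε v q.1 q.2 * P q) := (mk.mul hP).ennreal_ofReal
    rw [lintegral_prod _ hm.aemeasurable]
  refine ⟨?_, ?_⟩
  · rw [e1]
    have h1 := hi.hasFiniteIntegral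
    rw [hasFiniteIntegral_iff_ofReal hnn] at h1
    exact h1.ne
  · rw [e1, integral_eq_lintegral_of_nonneg_ae hnn hi.aestronglyMeasurable]

/-- the cut-off operator as gain minus loss -/
theorem cut_eq {γ s : ℝ} {b : ℝ → ℝ} {C Ca : ℝ} (H : Hyp d γ s b C Ca) {g : Vec d → ℝ}
    (hg : Nice g) (hg0 : ∀ u, 0 ≤ g u) {ε : ℝ} (hε : 0 < ε) (v : Vec d) :
    Gn γ b ε g v ≠ ⊤ ∧ Ls γ b ε g v ≠ ⊤ ∧
      boltzCut γ b ε g v = (Gn γ b ε g v).toReal - (Ls γ b ε g v).toReal := by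
  obtain ⟨A1, hA1, hA1'⟩ := post_prod_le hg.rd (0 + (d + 5))
  obtain ⟨A2, hA2, hA2'⟩ := prod_le' hg.rd (0 + (d + 5))
  have mg := hg.cont.measurable
  have mp : Measurable fun q : Vec d × Vec d => post v q.1 q.2 :=
    (continuous_post (d := d)).measurable.comp
      (measurable_const.prodMk (measurable_fst.prodMk measurable_snd))
  have mp' : Measurable fun q : Vec d × Vec d => post' v q.1 q.2 :=
    (continuous_post' (d := d)).measurable.comp
      (measurable_const.prodMk (measurable_fst.prodMk measurable_snd))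
  set P1 : Vec d × Vec d → ℝ := fun q => g (post' v q.1 q.2) * g (post v q.1 q.2) with hP1
  set P2 : Vec d × Vec d → ℝ := fun q => g q.1 * g v with hP2
  have m1 : Measurable P1 := (mg.comp mp').mul (mg.comp mp)
  have m2 : Measurable P2 := (mg.comp measurable_fst).mul measurable_const
  have n1 : ∀ q, 0 ≤ P1 q := fun q => mul_nonneg (hg0 _) (hg0 _)
  have n2 : ∀ q, 0 ≤ P2 q := fun q => mul_nonneg (hg0 _) (hg0 _)
  have i1 := Real_int H hε v m1 hA1 (fun w σ hσ => by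
    have := hA1' v w σ hσ
    rw [mul_comm] at this
    exact this)
  have i2 := Real_int H hε v m2 hA2 (fun w σ _ => by
    have := hA2' v w
    rw [mul_comm] at this
    exact this)
  obtain ⟨t1, r1⟩ := Real_toReal H hε v m1 n1 i1
  obtain ⟨t2, r2⟩ := Real_toReal H hε v m2 n2 i2
  have e : boltzCut γ b ε g v =
      (∫ q, kerB γ b ε v q.1 q.2 * P1 q ∂((volume : Measure (Vec d)).prod (surf d))) -
      ∫ q, kerB γ b ε v q.1 q.2 * P2 q ∂((volume : Measure (Vec d)).prod (surf d)) := by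
    have i3 : Integrable (fun q : Vec d × Vec d => kerB γ b ε v q.1 q.2 * P1 q -
        kerB γ b ε v q.1 q.2 * P2 q) ((volume : Measure (Vec d)).prod (surf d)) := i1.sub i2
    rw [← integral_sub i1 i2, integral_prod _ i3]
    unfold boltzCut
    refine integral_congr_ae (Eventually.of_forall fun w => ?_)
    refine integral_congr_ae (Eventually.of_forall fun σ => ?_)
    simp only [hP1, hP2]
    ring
  have hG : Gn γ b ε g v =
      ∫⁻ w, ∫⁻ σ, ENNReal.ofReal (kerB γ b ε v w σ * P1 (w, σ)) ∂(surf d) := rfl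
  have hL : Ls γ b ε g v =
      ∫⁻ w, ∫⁻ σ, ENNReal.ofReal (kerB γ b ε v w σ * P2 (w, σ)) ∂(surf d) := rfl
  rw [e, r1, r2, ← hG, ← hL]
  rw [← hL] at t2
  rw [← hG] at t1
  exact ⟨t1, t2, rfl⟩

theorem cut_leg {γ s : ℝ} {b : ℝ → ℝ} {C Ca : ℝ} (H : Hyp d γ s b C Ca) {g : Vec d → ℝ}
    (hg : Nice g) (hg0 : ∀ u, 0 ≤ g u) {ε : ℝ} (hε : 0 < ε) (v : Vec d) {R S : ℝ} (hR : 0 ≤ R)
    (hS : 0 ≤ S) (h : Gn γ b ε g v + ENNReal.ofReal S ≤ Ls γ b ε g v + ENNReal.ofReal R) :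
    boltzCut γ b ε g v + S ≤ R := by
  obtain ⟨t1, t2, e⟩ := cut_eq H hg hg0 hε v
  rw [e]
  have h3 : (Gn γ b ε g v + ENNReal.ofReal S).toReal ≤
      (Ls γ b ε g v + ENNReal.ofReal R).toReal :=
    ENNReal.toReal_mono (ENNReal.add_ne_top.2 ⟨t2, ENNReal.ofReal_ne_top⟩) h
  rw [ENNReal.toReal_add t2 ENNReal.ofReal_ne_top, ENNReal.toReal_ofReal hR,
    ENNReal.toReal_add t1 ENNReal.ofReal_ne_top, ENNReal.toReal_ofReal hS] at h3
  linarith

/-- the lower bound from an inequality between loss and gain -/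
theorem cut_geg {γ s : ℝ} {b : ℝ → ℝ} {C Ca : ℝ} (H : Hyp d γ s b C Ca) {g : Vec d → ℝ}
    (hg : Nice g) (hg0 : ∀ u, 0 ≤ g u) {ε : ℝ} (hε : 0 < ε) (v : Vec d) {R : ℝ} (hR : 0 ≤ R)
    (h : Ls γ b ε g v ≤ Gn γ b ε g v + ENNReal.ofReal R) : -R ≤ boltzCut γ b ε g v := by
  obtain ⟨t1, t2, e⟩ := cut_eq H hg hg0 hε v
  rw [e]
  have h3 : (Ls γ b ε g v).toReal ≤ (Gn γ b ε g v + ENNReal.ofReal R).toReal :=
    ENNReal.toReal_mono (ENNReal.add_ne_top.2 ⟨t1, ENNReal.ofReal_ne_top⟩) h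
  rw [ENNReal.toReal_add t1 ENNReal.ofReal_ne_top, ENNReal.toReal_ofReal hR] at h3
  linarith

/-- `g(z) |v-z|^γ` is integrable, `-2 < γ ≤ 2` -/
theorem freq_integrable (hd : 2 ≤ d) {γ : ℝ} (h1 : -2 < γ) (h2 : γ ≤ 2) {g : Vec d → ℝ}
    (hg : Nice g) (v : Vec d) : Integrable fun z : Vec d => g z * len (v - z) ^ γ := by
  rcases le_or_gt γ 0 with h | h
  · exact Real_term2 hd hg h1 h v
  · have h3 : RD (fun z : Vec d => g z * (1 + 2 * nsq v + 2 * nsq z)) :=
      hg.rd.mul_PG ((PG.const (1 + 2 * nsq v : ℝ)).add ((PG.const (2 : ℝ)).mul PG.nsq))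
    have h4 : RD (fun z : Vec d => g z * len (v - z) ^ γ) := by
      refine h3.mono 1 fun z => ?_
      have hn := sq_nonneg' z
      have hv := sq_nonneg' v
      have h5 : len (v - z) ^ γ ≤ 1 + 2 * nsq v + 2 * nsq z := by
        have h6 : nsq (v - z) ≤ 2 * nsq v + 2 * nsq z := by
          have e1 := nsq_par v z
          have e2 := sq_nonneg' (v + z)
          linarith
        rcases le_or_gt (len (v - z)) 1 with h7 | h7
        · have := Real.rpow_le_one (len_nonneg (v - z)) h7 h.le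
          linarith
        · have h8 : len (v - z) ^ γ ≤ len (v - z) ^ (2 : ℝ) :=
            Real.rpow_le_rpow_of_exponent_le h7.le h2
          have h9 : len (v - z) ^ (2 : ℝ) = nsq (v - z) := by
            rw [← len_sq]
            exact Real.rpow_natCast _ 2
          linarith
      have h10 := Real.rpow_nonneg (len_nonneg (v - z)) γ
      rw [norm_mul, norm_mul, one_mul, Real.norm_eq_abs (len (v - z) ^ γ),
        Real.norm_eq_abs (1 + 2 * nsq v + 2 * nsq z), abs_of_nonneg h10,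
        abs_of_nonneg (by linarith : (0 : ℝ) ≤ 1 + 2 * nsq v + 2 * nsq z)]
      exact mul_le_mul_of_nonneg_left h5 (norm_nonneg _)
    refine h4.integrable ?_
    exact (hg.cont.measurable.mul ((continuous_len.comp
      (continuous_const.sub continuous_id)).measurable.pow_const γ)).aestronglyMeasurable

end Pool.Agent.H82.CM
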