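import Pool.Agent.H82.CM.FoldG
import Pool.Agent.H82.BK.Geo

/-!
# ExcG: the exceptional gain

Exceptional pairs `(w', v')`: `|v'|² < a/4, |v'-v|² ≥ a/4`, or `|w'|² > L a, |v'-v|² ≥ θ a`. After `σ → -σ` the kernel lives on
`2c² ≤ 1` and in both cases `a ≤ M c² (1+|v+h|²)`, so that the integrand is at most a constant times `g(v)`.
-/

set_option autoImplicit false

open MeasureTheory Set Filter Topology Pool.Agent.H25.Kin Pool.Agent.H82.BK
open scoped ENNReal

namespace Pool.Agent.H82.CM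

variable {d : ℕ}

/-- pairs `(w', v')` outside the exceptional region -/
def RegS (θ L : ℝ) (v : Vec d) : Set (Vec d × Vec d) :=
  {q | ¬ (nsq q.2 < (1 + nsq v) / 4 ∧ (1 + nsq v) / 4 ≤ nsq (q.2 - v)) ∧
    ¬ (L * (1 + nsq v) < nsq q.1 ∧ θ * (1 + nsq v) ≤ nsq (q.2 - v))}

lemma measurableSet_RegS (θ L : ℝ) (v : Vec d) : MeasurableSet (RegS θ L v) := by
  have h1 : Measurable fun q : Vec d × Vec d => nsq q.2 :=
    (continuous_sq.comp continuous_snd).measurable
  have h2 : Measurable fun q : Vec d × Vec d => nsq q.1 :=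
    (continuous_sq.comp continuous_fst).measurable
  have h3 : Measurable fun q : Vec d × Vec d => nsq (q.2 - v) :=
    (continuous_sq.comp (continuous_snd.sub continuous_const)).measurable
  have e : RegS θ L v = ({q : Vec d × Vec d | nsq q.2 < (1 + nsq v) / 4} ∩
      {q | (1 + nsq v) / 4 ≤ nsq (q.2 - v)})ᶜ ∩
      ({q | L * (1 + nsq v) < nsq q.1} ∩ {q | θ * (1 + nsq v) ≤ nsq (q.2 - v)})ᶜ := by
    ext q
    simp [RegS]
  rw [e]
  exact ((measurableSet_lt h1 measurable_const).inter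
    (measurableSet_le measurable_const h3)).compl.inter
    ((measurableSet_lt measurable_const h2).inter (measurableSet_le measurable_const h3)).compl

private lemma exc_one {v m σ : Vec d} (hσ : nsq σ = 1) (hd : 0 < dot m σ)
    (h1 : nsq (v - m) < (1 + nsq v) / 4) (h2 : (1 + nsq v) / 4 ≤ nsq m)
    (hc : 2 * co m σ ^ 2 ≤ 1) :
    1 + nsq v ≤ 16 * co m σ ^ 2 * (1 + nsq (v + hh σ m)) := by
  have hcp := co_pos hd
  have hc2 : 0 < co m σ ^ 2 := by positivity
  have hv : 0 ≤ nsq v := sq_nonneg' v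
  have hm : 0 ≤ nsq m := sq_nonneg' m
  have hh0 : 0 ≤ nsq (hh σ m) := sq_nonneg' _
  have hh1 : co m σ ^ 2 * nsq (hh σ m) = nsq m * (1 - co m σ ^ 2) := by
    rw [nsq_hh hσ hd]; field_simp
  have e1 := one_add_nsq_add v hd
  have e2 := dot_sq_le (v - m) (hh σ m)
  have e3 : (2 * dot (v - m) (hh σ m)) ^ 2 ≤ ((1 + nsq v + nsq (hh σ m)) / 2) ^ 2 := by
    nlinarith [sq_nonneg (1 + nsq v - nsq (hh σ m))]
  have e4 := (abs_le_of_sq_le_sq' e3 (by positivity)).1
  have e5 : (1 + nsq v + nsq (hh σ m)) / 2 ≤ 1 + nsq (v + hh σ m) := by linarith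
  have e6 : (1 + nsq v) / 8 ≤ co m σ ^ 2 * nsq (hh σ m) := by
    rw [hh1]
    nlinarith
  have e7 : co m σ ^ 2 * ((1 + nsq v + nsq (hh σ m)) / 2) ≤
      co m σ ^ 2 * (1 + nsq (v + hh σ m)) := mul_le_mul_of_nonneg_left e5 hc2.le
  nlinarith

private lemma exc_two {θ L : ℝ} (hθ : 0 < θ) (hL : 1 ≤ L) {v m σ : Vec d} (hσ : nsq σ = 1)
    (hd : 0 < dot m σ) (h1 : L * (1 + nsq v) < nsq (v + hh σ m)) (h2 : θ * (1 + nsq v) ≤ nsq m)
    (hc : 2 * co m σ ^ 2 ≤ 1) :
    1 + nsq v ≤ 8 / θ * co m σ ^ 2 * (1 + nsq (v + hh σ m)) := by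
  have hcp := co_pos hd
  have hc2 : 0 < co m σ ^ 2 := by positivity
  have hv : 0 ≤ nsq v := sq_nonneg' v
  have hh1 : co m σ ^ 2 * nsq (hh σ m) = nsq m * (1 - co m σ ^ 2) := by
    rw [nsq_hh hσ hd]; field_simp
  set w := v + hh σ m with hw
  have hhw : hh σ m = w - v := by rw [hw]; abel
  have e1 : nsq (hh σ m) ≤ 2 * nsq w + 2 * nsq v := by
    have e2 := nsq_sub w v
    have e3 := nsq_add w v
    have e4 := sq_nonneg' (w + v)
    rw [hhw]; linarith
  have e5 : nsq v ≤ nsq w := by nlinarith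
  have e6 : nsq (hh σ m) ≤ 4 * nsq w := by linarith
  have e7 : θ * (1 + nsq v) ≤ 2 * (co m σ ^ 2 * nsq (hh σ m)) := by
    rw [hh1]
    have hm : 0 ≤ nsq m := sq_nonneg' m
    nlinarith
  have e8 : co m σ ^ 2 * nsq (hh σ m) ≤ co m σ ^ 2 * (4 * nsq w) :=
    mul_le_mul_of_nonneg_left e6 hc2.le
  have e9 : θ * (1 + nsq v) ≤ 8 * co m σ ^ 2 * (1 + nsq w) := by
    have : 0 ≤ co m σ ^ 2 := hc2.le
    nlinarith
  calc 1 + nsq v = (θ * (1 + nsq v)) / θ := by field_simp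
    _ ≤ (8 * co m σ ^ 2 * (1 + nsq w)) / θ := by gcongr
    _ = 8 / θ * co m σ ^ 2 * (1 + nsq w) := by ring

private lemma rpow_exc {c γ B M : ℝ} {p : ℕ} (hM : 0 ≤ M) (hc : 0 < c) (hc1 : c ≤ 1)
    (hE : 0 ≤ -2 - γ - 2 * B + 2 * p) :
    c ^ (-2 - γ) * (2 * c ^ 2) ^ (-B) * (M * c ^ 2) ^ p ≤ 2 ^ (-B) * M ^ p := by
  have h1 : (2 * c ^ 2) ^ (-B) = 2 ^ (-B) * c ^ (-2 * B) := by
    rw [Real.mul_rpow (by norm_num) (by positivity), ← Real.rpow_natCast c 2,
      ← Real.rpow_mul hc.le]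
    congr 2
    push_cast
    ring
  have h2 : (M * c ^ 2) ^ p = M ^ p * c ^ (2 * (p : ℝ)) := by
    rw [mul_pow, ← pow_mul, ← Real.rpow_natCast c (2 * p)]
    push_cast
    ring
  have h3 : c ^ (-2 - γ) * c ^ (-2 * B) * c ^ (2 * (p : ℝ)) ≤ 1 := by
    rw [← Real.rpow_add hc, ← Real.rpow_add hc]
    exact Real.rpow_le_one hc.le hc1 (by linarith)
  have h4 : (0 : ℝ) ≤ 2 ^ (-B) * M ^ p := by positivity
  calc c ^ (-2 - γ) * (2 * c ^ 2) ^ (-B) * (M * c ^ 2) ^ p
      = (2 ^ (-B) * M ^ p) * (c ^ (-2 - γ) * c ^ (-2 * B) * c ^ (2 * (p : ℝ))) := by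
        rw [h1, h2]; ring
    _ ≤ (2 ^ (-B) * M ^ p) * 1 := mul_le_mul_of_nonneg_left h3 h4
    _ = _ := mul_one _

open Classical in
theorem exc_boundg {γ s : ℝ} {b : ℝ → ℝ} {C Ca : ℝ} (H : Hyp d γ s b C Ca) {p : ℕ}
    (hp : (d : ℝ) + γ + 4 ≤ 2 * p) {θ : ℝ} (hθ : 0 < θ) :
    ∃ K : ℝ, 0 ≤ K ∧ ∀ L : ℝ, 1 ≤ L → ∀ g : Vec d → ℝ, (∀ u, 0 ≤ g u) → ∀ v : Vec d,
      (∀ u, g u * (1 + nsq u) ^ p ≤ g v * (1 + nsq v) ^ p) → ∀ m : Vec d, ∀ ε > 0,
      GEg γ b ε g (RegS θ L v) v m ≤ ENNReal.ofReal (K * g v) := by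
  set B : ℝ := ((d : ℝ) - 1) / 2 + s with hB
  have hC0 : 0 ≤ C := H.bd.1
  set M : ℝ := 16 + 8 / θ with hM
  have hM0 : 0 ≤ M := by positivity
  set K₀ : ℝ := 2 ^ (d - 1) * (2 * C) * (2 ^ (-B) * M ^ p) with hK₀
  have hK₀0 : 0 ≤ K₀ := by positivity
  refine ⟨K₀ * (surf d univ).toReal, by positivity, ?_⟩
  intro L hL g hg0 v hgv m ε hε
  have hgv0 := hg0 v
  have key : ∀ σ : Vec d, nsq σ = 1 → 0 < dot m σ → (v + hh σ m, v - m) ∉ RegS θ L v →
      Kn d γ (fun x => bt b ε (-x)) (co m σ) * g (v + hh σ m) ≤ K₀ * g v := by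
    intro σ hσ hd hreg
    have hcp := co_pos hd
    have hc1 := co_le_one (m := m) hσ
    unfold Kn
    show 2 ^ (d - 1) * co m σ ^ (-2 - γ) * bt b ε (-(2 * co m σ ^ 2 - 1)) * g (v + hh σ m) ≤ K₀ * g v
    rcases lt_or_ge (-(2 * co m σ ^ 2 - 1)) 0 with hx | hx
    · rw [bt_neg hx]
      simp only [mul_zero, zero_mul]
      positivity
    · have hc2 : 2 * co m σ ^ 2 ≤ 1 := by linarith
      have hcc : 0 < co m σ ^ 2 := by positivity
      have hbt := bt_le (ε := ε) H.bd H.β0 hx (by linarith)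
      have hx1 : 1 - -(2 * co m σ ^ 2 - 1) = 2 * co m σ ^ 2 := by ring
      rw [hx1] at hbt
      have hbn := bt_nonneg (ε := ε) H.bd hε (x := -(2 * co m σ ^ 2 - 1)) (by linarith)
        (by linarith)
      have ha : 0 < 1 + nsq v := by have := sq_nonneg' v; linarith
      have ha' : 0 < 1 + nsq (v + hh σ m) := by have := sq_nonneg' (v + hh σ m); linarith
      have hge : 1 + nsq v ≤ M * co m σ ^ 2 * (1 + nsq (v + hh σ m)) := by
        have e7 : v - m - v = -m := by abel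
        have hcase : (nsq (v - m) < (1 + nsq v) / 4 ∧ (1 + nsq v) / 4 ≤ nsq m) ∨
            (L * (1 + nsq v) < nsq (v + hh σ m) ∧ θ * (1 + nsq v) ≤ nsq m) := by
          by_contra hcon
          push Not at hcon
          apply hreg
          refine ⟨?_, ?_⟩
          · rintro ⟨q1, q2⟩
            change nsq (v - m) < (1 + nsq v) / 4 at q1
            change (1 + nsq v) / 4 ≤ nsq (v - m - v) at q2
            rw [e7, Pool.Agent.H25.Kin.sq_neg] at q2
            exact absurd q2 (not_le.2 (hcon.1 q1))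
          · rintro ⟨q1, q2⟩
            change L * (1 + nsq v) < nsq (v + hh σ m) at q1
            change θ * (1 + nsq v) ≤ nsq (v - m - v) at q2
            rw [e7, Pool.Agent.H25.Kin.sq_neg] at q2
            exact absurd q2 (not_le.2 (hcon.2 q1))
        have hq : 0 ≤ co m σ ^ 2 * (1 + nsq (v + hh σ m)) := by positivity
        have h8θ : 0 ≤ 8 / θ := by positivity
        rcases hcase with ⟨q1, q2⟩ | ⟨q1, q2⟩
        · have := exc_one hσ hd q1 q2 hc2
          rw [hM]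
          nlinarith
        · have := exc_two hθ hL hσ hd q1 q2 hc2
          rw [hM]
          nlinarith
      have hg1 : g (v + hh σ m) ≤ g v * (M * co m σ ^ 2) ^ p := by
        have h3 := hgv (v + hh σ m)
        have h4 : (1 + nsq v) ^ p ≤ (M * co m σ ^ 2) ^ p * (1 + nsq (v + hh σ m)) ^ p := by
          rw [← mul_pow]
          exact pow_le_pow_left₀ ha.le hge p
        have h5 : g (v + hh σ m) * (1 + nsq (v + hh σ m)) ^ p ≤
            (g v * (M * co m σ ^ 2) ^ p) * (1 + nsq (v + hh σ m)) ^ p := by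
          calc _ ≤ g v * (1 + nsq v) ^ p := h3
            _ ≤ g v * ((M * co m σ ^ 2) ^ p * (1 + nsq (v + hh σ m)) ^ p) :=
                mul_le_mul_of_nonneg_left h4 hgv0
            _ = _ := by ring
        exact le_of_mul_le_mul_right h5 (by positivity)
      have hrp := rpow_exc (c := co m σ) (γ := γ) (B := B) (p := p) hM0 hcp hc1 (by
        have := H.hs1
        rw [hB]
        linarith)
      have hc3 : 0 ≤ co m σ ^ (-2 - γ) := Real.rpow_nonneg hcp.le _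
      calc 2 ^ (d - 1) * co m σ ^ (-2 - γ) * bt b ε (-(2 * co m σ ^ 2 - 1)) * g (v + hh σ m)
          ≤ 2 ^ (d - 1) * co m σ ^ (-2 - γ) * (2 * C * (2 * co m σ ^ 2) ^ (-B)) *
            (g v * (M * co m σ ^ 2) ^ p) := by
            apply mul_le_mul _ hg1 (hg0 _) (by positivity)
            exact mul_le_mul_of_nonneg_left hbt (by positivity)
        _ = 2 ^ (d - 1) * (2 * C) * g v *
            (co m σ ^ (-2 - γ) * (2 * co m σ ^ 2) ^ (-B) * (M * co m σ ^ 2) ^ p) := by ring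
        _ ≤ 2 ^ (d - 1) * (2 * C) * g v * (2 ^ (-B) * M ^ p) :=
            mul_le_mul_of_nonneg_left hrp (by positivity)
        _ = K₀ * g v := by rw [hK₀]; ring
  unfold GEg
  calc ∫⁻ σ in {σ : Vec d | 0 < dot m σ}, (if (v + hh σ m, v - m) ∈ RegS θ L v then 0 else
        ENNReal.ofReal (Kn d γ (fun x => bt b ε (-x)) (co m σ) * g (v + hh σ m))) ∂(surf d)
      ≤ ∫⁻ σ in {σ : Vec d | 0 < dot m σ}, ENNReal.ofReal (K₀ * g v) ∂(surf d) := by
        apply lintegral_mono_ae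
        filter_upwards [ae_restrict_of_ae surf_ae, ae_restrict_mem (measurableSet_half m)]
          with σ hσ hd
        split_ifs with h
        · exact zero_le
        · exact ENNReal.ofReal_le_ofReal (key σ hσ hd h)
    _ = ENNReal.ofReal (K₀ * g v) * surf d {σ : Vec d | 0 < dot m σ} := by
        rw [setLIntegral_const]
    _ ≤ ENNReal.ofReal (K₀ * g v) * surf d univ := by gcongr; exact subset_univ _
    _ = ENNReal.ofReal (K₀ * (surf d univ).toReal * g v) := by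
        have h0 : 0 ≤ K₀ * g v := mul_nonneg hK₀0 (hg0 v)
        rw [show K₀ * (surf d univ).toReal * g v = (K₀ * g v) * (surf d univ).toReal by ring,
          ENNReal.ofReal_mul h0, ENNReal.ofReal_toReal (measure_ne_top _ _)]

end Pool.Agent.H82.CM
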