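import Pool.Agent.H82.BK.Defs

/-!
# Definitions for the scale critical operator bound at a touching point (MP_c15324_an)

`a = 1 + |v|²`, `z` the background velocity `w'`, `m = v - z`.
-/

set_option autoImplicit false

open MeasureTheory Set Filter Topology Pool.Agent.H25.Kin Pool.Agent.H82.BK
open scoped ENNReal

namespace Pool.Agent.H82.CM

variable {d : ℕ}

/-- slow background velocities: `|z|² ≤ δ² (1+|v|²)`, for `1+|v|² ≥ a₀` -/
def SlowR (δ a₀ : ℝ) (v z : Vec d) : Prop :=
  a₀ ≤ 1 + nsq v ∧ nsq z ≤ δ ^ 2 * (1 + nsq v)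

/-- medium background velocities: `|z|² ≤ L (1+|v|²)` and not slow -/
def MedR (δ a₀ L : ℝ) (v z : Vec d) : Prop :=
  nsq z ≤ L * (1 + nsq v) ∧ ¬ SlowR δ a₀ v z

end Pool.Agent.H82.CM
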