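import Pool.Agent.H82.CM.Shell
import Pool.Agent.H82.CM.Defs
import Pool.Agent.H82.BK.Pw
import Pool.Agent.H82.BK.Loss

/-!
# LowK: the lower bound of the kernel, and two lower bounds of angular integrals
-/

set_option autoImplicit false

open MeasureTheory Set Filter Topology Pool.Agent.H25.Kin Pool.Agent.H82.BK
open scoped ENNReal

namespace Pool.Agent.H82.CM

variable {d : ℕ}

/-- lower bound of the angular kernel on `[0,1)` -/
def LowB (b : ℝ → ℝ) (cb β : ℝ) : Prop := 0 < cb ∧ ∀ x, 0 ≤ x → x < 1 → cb * (1 - x) ^ (-β) ≤ b x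

lemma exists_low {s : ℝ} {b : ℝ → ℝ} (hd : 1 ≤ d) (hs : 0 < s) (hb : IsKernel d s b) :
    ∃ cb, LowB b cb (((d : ℝ) - 1) / 2 + s) := by
  obtain ⟨c, hc, h1⟩ := hb.grazing
  have hd1 : (0 : ℝ) ≤ (d : ℝ) - 1 := by
    have : (1 : ℝ) ≤ d := by exact_mod_cast hd
    linarith
  set β : ℝ := ((d : ℝ) - 1) / 2 + s with hβ
  have hβ0 : 0 < β := by positivity
  have hπ := Real.pi_pos
  refine ⟨c⁻¹ * (Real.pi ^ 2 / 2) ^ (-β), by positivity, fun x hx hx1 => ?_⟩
  have hp : 0 < 1 - x := by linarith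
  set θ := Real.arccos x with hθ
  have hcos : Real.cos θ = x := Real.cos_arccos (by linarith) hx1.le
  have hθ0 : 0 < θ := Real.arccos_pos.2 hx1
  have hθ1 : θ ≤ Real.pi / 2 := Real.arccos_le_pi_div_two.2 hx
  obtain ⟨a1, _⟩ := h1 θ ⟨hθ0, hθ1⟩
  rw [hcos] at a1
  refine le_trans ?_ a1
  have h3 : θ ^ 2 ≤ Real.pi ^ 2 / 2 * (1 - x) := by
    have h4 : Real.cos θ ≤ 1 - 2 / Real.pi ^ 2 * θ ^ 2 :=
      Real.cos_le_one_sub_mul_cos_sq (by rw [abs_of_pos hθ0]; linarith)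
    rw [hcos] at h4
    have h5 : 2 / Real.pi ^ 2 * θ ^ 2 ≤ 1 - x := by linarith
    calc θ ^ 2 = Real.pi ^ 2 / 2 * (2 / Real.pi ^ 2 * θ ^ 2) := by field_simp
      _ ≤ _ := mul_le_mul_of_nonneg_left h5 (by positivity)
  have h6 : θ ^ (-((d : ℝ) - 1) - 2 * s) = (θ ^ 2) ^ (-β) := by
    rw [← Real.rpow_natCast θ 2, ← Real.rpow_mul hθ0.le]
    congr 1
    rw [hβ]
    push_cast
    ring
  rw [h6, mul_assoc, ← Real.mul_rpow (by positivity) hp.le]
  refine mul_le_mul_of_nonneg_left ?_ (by positivity)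
  exact Real.rpow_le_rpow_of_nonpos (by positivity) h3 (by linarith)

/-- the folded kernel is at least the kernel -/
lemma bt_ge {b : ℝ → ℝ} {C β ε : ℝ} (hC : AngBound b C β) {x : ℝ} (hx : 0 < x)
    (hx1 : x ≤ 1) (hxe : x ≤ 1 - ε) : b x ≤ bt b ε x := by
  unfold bt bcut
  rw [if_pos hx, if_pos hxe, if_pos hx.le]
  have : 0 ≤ (if -x ≤ 1 - ε then b (-x) else 0) := by
    split_ifs
    · exact (hC.2 (-x) (by linarith) (by linarith)).1
    · exact le_rfl
  linarith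

/-- constants and hypotheses -/
structure HypL (d : ℕ) (γ s : ℝ) (b : ℝ → ℝ) (C Ca cb : ℝ) : Prop where
  H : Hyp d γ s b C Ca
  lo : LowB b cb (((d : ℝ) - 1) / 2 + s)

lemma exists_hypL {γ s : ℝ} {b : ℝ → ℝ} (hd : 2 ≤ d) (hs : 0 < s) (hs1 : s < 1)
    (h0 : 0 ≤ γ + 2 * s) (h2 : γ + 2 * s ≤ 2) (hb : IsKernel d s b) :
    ∃ C Ca cb, HypL d γ s b C Ca cb := by
  obtain ⟨C, Ca, H⟩ := exists_hyp hd hs hs1 h0 h2 hb
  obtain ⟨cb, hcb⟩ := exists_low (by omega : 1 ≤ d) hs hb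
  exact ⟨C, Ca, cb, H, hcb⟩

/-- **the slack**: `∫ bt(x) (1-x²)/4 ≥ κ`, uniformly in the cut-off `ε ≤ 1/64` -/
theorem slack_low {γ s : ℝ} {b : ℝ → ℝ} {C Ca cb : ℝ} (HL : HypL d γ s b C Ca cb) :
    ∃ κ : ℝ, 0 < κ ∧ ∀ ε : ℝ, 0 < ε → ε ≤ 1 / 64 → ∀ k : Vec d, nsq k = 1 →
      ENNReal.ofReal κ ≤
        ∫⁻ σ, ENNReal.ofReal (bt b ε (dot k σ) * ((1 - dot k σ ^ 2) / 4)) ∂(surf d) := by
  obtain ⟨c, hc, hsh⟩ := shell_low HL.H.hd
  have hcb := HL.lo.1
  have hβ := HL.H.β0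
  set D : ℝ := ((d : ℝ) - 1) / 2 with hD
  refine ⟨cb / 256 * (c * (1 / 64) ^ D), by positivity, fun ε hε hε1 k hk => ?_⟩
  have h1 := hsh k hk (1 / 64) (by norm_num) (by norm_num)
  have hSm : MeasurableSet {σ : Vec d | 1 / 64 ≤ 1 - dot k σ ∧ 1 - dot k σ ≤ 32 * (1 / 64)} :=
    ((isClosed_le continuous_const (continuous_const.sub (dot_cont k))).inter
      (isClosed_le (continuous_const.sub (dot_cont k)) continuous_const)).measurableSet
  calc ENNReal.ofReal (cb / 256 * (c * (1 / 64) ^ D))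
      = ENNReal.ofReal (cb / 256) * ENNReal.ofReal (c * (1 / 64) ^ D) :=
        ENNReal.ofReal_mul (by positivity)
    _ ≤ ENNReal.ofReal (cb / 256) *
        surf d {σ | 1 / 64 ≤ 1 - dot k σ ∧ 1 - dot k σ ≤ 32 * (1 / 64)} := by gcongr
    _ = ∫⁻ _σ in {σ : Vec d | 1 / 64 ≤ 1 - dot k σ ∧ 1 - dot k σ ≤ 32 * (1 / 64)},
          ENNReal.ofReal (cb / 256) ∂(surf d) := by
        rw [setLIntegral_const]
    _ ≤ ∫⁻ σ in {σ : Vec d | 1 / 64 ≤ 1 - dot k σ ∧ 1 - dot k σ ≤ 32 * (1 / 64)},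
          ENNReal.ofReal (bt b ε (dot k σ) * ((1 - dot k σ ^ 2) / 4)) ∂(surf d) := by
        refine setLIntegral_mono' hSm fun σ hσ => ENNReal.ofReal_le_ofReal ?_
        obtain ⟨h2, h3⟩ := hσ
        set x := dot k σ with hx
        have hx1 : 1 / 2 ≤ x := by linarith
        have hx2 : x ≤ 63 / 64 := by linarith
        have h4 := bt_ge (ε := ε) HL.H.bd (x := x) (by linarith) (by linarith) (by linarith)
        have h5 := HL.lo.2 x (by linarith) (by linarith)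
        have h6 : 1 ≤ (1 - x) ^ (-(((d : ℝ) - 1) / 2 + s)) :=
          Real.one_le_rpow_of_pos_of_le_one_of_nonpos (by linarith) (by linarith) (by linarith)
        have h7 : cb ≤ bt b ε x := by nlinarith
        have h8 : 1 / 256 ≤ (1 - x ^ 2) / 4 := by nlinarith
        calc cb / 256 = cb * (1 / 256) := by ring
          _ ≤ bt b ε x * ((1 - x ^ 2) / 4) := mul_le_mul h7 h8 (by norm_num) (by linarith)
    _ ≤ _ := setLIntegral_le_lintegral _ _

/-- **lower bound of the loss away from grazing**: for `0 < u ≤ 1/256` and cut-off `ε ≤ u`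
`∫ K(c) c^(d+γ) 1[1-c ≥ u] ≥ c u^(-s)` -/
theorem loss_low {γ s : ℝ} {b : ℝ → ℝ} {C Ca cb : ℝ} (HL : HypL d γ s b C Ca cb) :
    ∃ c : ℝ, 0 < c ∧ ∀ m : Vec d, m ≠ 0 → ∀ u ε : ℝ, 0 < u → u ≤ 1 / 256 → 0 < ε → ε ≤ u →
      ENNReal.ofReal (c * u ^ (-s)) ≤
        ∫⁻ σ in {σ : Vec d | 0 < dot m σ}, (if u ≤ 1 - co m σ then ENNReal.ofReal
          (Kn d γ (bt b ε) (co m σ) * co m σ ^ ((d : ℝ) + γ)) else 0) ∂(surf d) := by
  obtain ⟨c, hc, hsh⟩ := shell_low HL.H.hd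
  have hcb := HL.lo.1
  have hβ := HL.H.β0
  have hd2 : (2 : ℝ) ≤ d := by exact_mod_cast HL.H.hd
  have hg1 := HL.H.g1
  set D : ℝ := ((d : ℝ) - 1) / 2 with hD
  set B : ℝ := D + s with hB
  set M : ℝ := cb * 128 ^ (-B) * (7 / 8 : ℝ) ^ ((d : ℝ) + γ) with hM
  have hM0 : 0 < M := by positivity
  refine ⟨M * c, by positivity, fun m hm u ε hu hu1 hε hεu => ?_⟩
  have hk := nsq_dir hm
  have h1 := hsh (dir m) hk u hu (by linarith)
  set S : Set (Vec d) := {σ : Vec d | u ≤ 1 - dot (dir m) σ ∧ 1 - dot (dir m) σ ≤ 32 * u} with hS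
  have hSm : MeasurableSet S :=
    ((isClosed_le continuous_const (continuous_const.sub (dot_cont (dir m)))).inter
      (isClosed_le (continuous_const.sub (dot_cont (dir m))) continuous_const)).measurableSet
  have hSsub : S ⊆ {σ : Vec d | 0 < dot m σ} := by
    intro σ hσ
    have h3 := hσ.2
    have h4 : 0 < co m σ := by rw [co_eq]; linarith
    unfold co at h4
    have := mul_pos h4 (len_pos hm)
    rw [div_mul_cancel₀ _ (len_pos hm).ne'] at this
    exact this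
  calc ENNReal.ofReal (M * c * u ^ (-s))
      = ENNReal.ofReal (M * u ^ (-B)) * ENNReal.ofReal (c * u ^ D) := by
        rw [← ENNReal.ofReal_mul (by positivity)]
        congr 1
        have : u ^ (-s) = u ^ (-B) * u ^ D := by
          rw [← Real.rpow_add hu, hB]; congr 1; ring
        rw [this]; ring
    _ ≤ ENNReal.ofReal (M * u ^ (-B)) * surf d S := by gcongr
    _ = ∫⁻ _σ in S, ENNReal.ofReal (M * u ^ (-B)) ∂(surf d) := by rw [setLIntegral_const]
    _ ≤ ∫⁻ σ in S, (if u ≤ 1 - co m σ then ENNReal.ofReal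
          (Kn d γ (bt b ε) (co m σ) * co m σ ^ ((d : ℝ) + γ)) else 0) ∂(surf d) := by
        refine setLIntegral_mono' hSm fun σ hσ => ?_
        obtain ⟨h2, h3⟩ := hσ
        rw [← co_eq] at h2 h3
        rw [if_pos h2]
        refine ENNReal.ofReal_le_ofReal ?_
        set c' := co m σ with hc'
        have hc1 : 7 / 8 ≤ c' := by linarith
        have hc2 : c' < 1 := by linarith
        have hc0 : 0 < c' := by linarith
        have hx0 : 0 < 2 * c' ^ 2 - 1 := by nlinarith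
        have hx1 : 2 * c' ^ 2 - 1 < 1 := by nlinarith
        have hxe : 2 * c' ^ 2 - 1 ≤ 1 - ε := by nlinarith
        have h4 := bt_ge (ε := ε) HL.H.bd hx0 hx1.le hxe
        have h5 := HL.lo.2 (2 * c' ^ 2 - 1) hx0.le hx1
        have h6 : (128 * u) ^ (-B) ≤ (1 - (2 * c' ^ 2 - 1)) ^ (-B) := by
          refine Real.rpow_le_rpow_of_nonpos (by linarith) ?_ (by linarith)
          nlinarith
        have h7 : (128 * u) ^ (-B) = 128 ^ (-B) * u ^ (-B) :=
          Real.mul_rpow (by norm_num) hu.le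
        have h8 : cb * (128 ^ (-B) * u ^ (-B)) ≤ bt b ε (2 * c' ^ 2 - 1) := by
          rw [← h7]
          exact (mul_le_mul_of_nonneg_left h6 hcb.le).trans (h5.trans h4)
        have h9 : 1 ≤ c' ^ (-2 - γ) :=
          Real.one_le_rpow_of_pos_of_le_one_of_nonpos hc0 hc2.le (by linarith)
        have h10 : (1 : ℝ) ≤ 2 ^ (d - 1) := one_le_pow₀ (by norm_num)
        have h11 : (7 / 8 : ℝ) ^ ((d : ℝ) + γ) ≤ c' ^ ((d : ℝ) + γ) :=
          Real.rpow_le_rpow (by norm_num) hc1 (by linarith)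
        have h12 : 0 < u ^ (-B) := Real.rpow_pos_of_pos hu _
        have hb0 : 0 ≤ cb * (128 ^ (-B) * u ^ (-B)) := by positivity
        have hb1 : 0 ≤ bt b ε (2 * c' ^ 2 - 1) := hb0.trans h8
        unfold Kn
        have h13 : bt b ε (2 * c' ^ 2 - 1) ≤
            2 ^ (d - 1) * c' ^ (-2 - γ) * bt b ε (2 * c' ^ 2 - 1) := by
          refine le_mul_of_one_le_left hb1 ?_
          exact one_le_mul_of_one_le_of_one_le h10 h9
        calc M * u ^ (-B) = (cb * (128 ^ (-B) * u ^ (-B))) * (7 / 8 : ℝ) ^ ((d : ℝ) + γ) := by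
              rw [hM]; ring
          _ ≤ (2 ^ (d - 1) * c' ^ (-2 - γ) * bt b ε (2 * c' ^ 2 - 1)) * c' ^ ((d : ℝ) + γ) :=
              mul_le_mul (h8.trans h13) h11 (by positivity) (hb1.trans h13)
    _ ≤ _ := lintegral_mono_set hSsub

end Pool.Agent.H82.CM
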