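import Pool.Agent.H82.CM.LowK
import Pool.Agent.H82.CM.ExcG
import Pool.Agent.H82.BK.Avg

/-!
# Fast: fast background velocities absorb

`|z|² > L a`. In the main region `|h|² < θ a`, so the gain is symmetrised to second order; it is smaller than the loss
because the loss keeps the angles with `|h|² ≥ θ a`, whose mass `≥ c u^(-s)` is large, `u = θ a/|m|²`.
-/

set_option autoImplicit false

open MeasureTheory Set Filter Topology Pool.Agent.H25.Kin Pool.Agent.H82.BK
open scoped ENNReal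

namespace Pool.Agent.H82.CM

variable {d : ℕ}

/-- the pointwise bound `g(u) ≤ g(v) (y^p)⁻¹` -/
private lemma fast_pt {p : ℕ} {g : Vec d → ℝ} {v u : Vec d}
    (hψ : ∀ u, g u * (1 + nsq u) ^ p ≤ g v * (1 + nsq v) ^ p) {y : ℝ} (hy : 0 < y)
    (he : 1 + nsq u = (1 + nsq v) * y) : g u ≤ g v * (y ^ p)⁻¹ := by
  have ha : 0 < 1 + nsq v := by have := sq_nonneg' v; linarith
  have h := hψ u
  rw [he, mul_pow] at h
  have hyp : 0 < y ^ p := pow_pos hy p
  have hap : 0 < (1 + nsq v) ^ p := pow_pos ha p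
  rw [← div_eq_mul_inv, le_div_iff₀ hyp]
  by_contra hc
  push Not at hc
  have : g v * (1 + nsq v) ^ p < g u * y ^ p * (1 + nsq v) ^ p :=
    mul_lt_mul_of_pos_right hc hap
  nlinarith

/-- the kernel bound: `Kn * min ≤ const * aw` -/
lemma fast_kernel {γ s : ℝ} {b : ℝ → ℝ} {C Ca : ℝ} (H : Hyp d γ s b C Ca)
    {m σ : Vec d} (hσ : nsq σ = 1) (hm : 0 < dot m σ) {ε : ℝ} (R : ℝ) :
    Kn d γ (bt b ε) (co m σ) * min (R ^ 2 * (1 - co m σ)) 1 ≤
      (2 ^ (d - 1) * 4 * (2 * C)) * aw (((d : ℝ) - 1) / 2 + s) R m 0 σ := by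
  have hcos : cosTh m 0 σ = co m σ := by
    unfold cosTh co; rw [sub_zero, dot_comm]
  unfold aw
  rw [hcos]
  set c := co m σ with hc_def
  have hc0 : 0 < c := co_pos hm
  have hc1 : c ≤ 1 := co_le_one hσ
  have hC0 : 0 ≤ C := H.bd.1
  have h1c : 0 ≤ 1 - c := by linarith
  have hB := H.β0
  set B := ((d : ℝ) - 1) / 2 + s with hBd
  have hmn0 : 0 ≤ min (R ^ 2 * (1 - c)) 1 := le_min (mul_nonneg (sq_nonneg _) h1c) zero_le_one
  have hr : 0 ≤ (1 - c) ^ (-B) := Real.rpow_nonneg h1c _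
  rcases lt_or_ge (2 * c ^ 2 - 1) 0 with h2 | h2
  · have : Kn d γ (bt b ε) c = 0 := by
      unfold Kn; rw [bt_neg h2, mul_zero]
    rw [this, zero_mul]
    positivity
  · rcases eq_or_lt_of_le hc1 with h3 | h3
    · have : min (R ^ 2 * (1 - c)) 1 = 0 := by
        rw [h3, sub_self, mul_zero]; exact min_eq_left zero_le_one
      rw [this, mul_zero, mul_zero, mul_zero]
    · rw [← mul_assoc]
      apply mul_le_mul_of_nonneg_right _ hmn0
      unfold Kn
      have h4 : 2 * c ^ 2 - 1 < 1 := by nlinarith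
      have h5 := bt_le (ε := ε) H.bd hB h2 h4
      have h6 : (1 - (2 * c ^ 2 - 1)) ^ (-B) ≤ (1 - c) ^ (-B) := by
        apply Real.rpow_le_rpow_of_nonpos (by linarith) _ (by linarith)
        nlinarith
      have h7 : bt b ε (2 * c ^ 2 - 1) ≤ 2 * C * (1 - c) ^ (-B) :=
        h5.trans (mul_le_mul_of_nonneg_left h6 (by linarith))
      have h8 : c ^ (-2 - γ) ≤ 4 := by
        have hg1 := H.g1
        have hg2 := H.g2
        have hcc : (1 / 2 : ℝ) ≤ c ^ 2 := by linarith
        have h9 : c ^ (-2 - γ) = (c ^ 2) ^ ((-2 - γ) / 2) := by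
          rw [← Real.rpow_natCast c 2, ← Real.rpow_mul hc0.le]
          congr 1; push_cast; ring
        rw [h9]
        calc (c ^ 2) ^ ((-2 - γ) / 2) ≤ (1 / 2 : ℝ) ^ ((-2 - γ) / 2) :=
              Real.rpow_le_rpow_of_nonpos (by norm_num) hcc (by linarith)
          _ ≤ (1 / 2 : ℝ) ^ (-2 : ℝ) :=
              Real.rpow_le_rpow_of_exponent_ge (by norm_num) (by norm_num) (by linarith)
          _ = 4 := by
              rw [Real.rpow_neg (by norm_num)]; norm_num
      have h10 : 0 ≤ c ^ (-2 - γ) := Real.rpow_nonneg hc0.le _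
      calc 2 ^ (d - 1) * c ^ (-2 - γ) * bt b ε (2 * c ^ 2 - 1)
          ≤ 2 ^ (d - 1) * c ^ (-2 - γ) * (2 * C * (1 - c) ^ (-B)) :=
            mul_le_mul_of_nonneg_left h7 (by positivity)
        _ ≤ 2 ^ (d - 1) * 4 * (2 * C * (1 - c) ^ (-B)) := by
            apply mul_le_mul_of_nonneg_right _ (by positivity)
            exact mul_le_mul_of_nonneg_left h8 (by positivity)
        _ = 2 ^ (d - 1) * 4 * (2 * C) * (1 - c) ^ (-B) := by ring

/-- the integrated kernel bound -/
lemma fast_kint {γ s : ℝ} {b : ℝ → ℝ} {C Ca : ℝ} (H : Hyp d γ s b C Ca) {m : Vec d}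
    (hm : m ≠ 0) (ε : ℝ) {R : ℝ} (hR : 0 < R) :
    ∫⁻ σ in {σ : Vec d | 0 < dot m σ}, ENNReal.ofReal
      (Kn d γ (bt b ε) (co m σ) * min (R ^ 2 * (1 - co m σ)) 1) ∂(surf d) ≤
      ENNReal.ofReal ((2 ^ (d - 1) * 4 * (2 * C)) * Ca * R ^ (2 * s)) := by
  have hC0 : 0 ≤ C := H.bd.1
  obtain ⟨hint, hle⟩ := H.an.2 m 0 hm R hR
  have hnn : 0 ≤ᵐ[surf d] fun σ => aw (((d : ℝ) - 1) / 2 + s) R m 0 σ := by
    filter_upwards [surf_ae] with σ hσ
    exact aw_nonneg _ _ hσ
  calc ∫⁻ σ in {σ : Vec d | 0 < dot m σ}, ENNReal.ofReal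
        (Kn d γ (bt b ε) (co m σ) * min (R ^ 2 * (1 - co m σ)) 1) ∂(surf d)
      ≤ ∫⁻ σ in {σ : Vec d | 0 < dot m σ}, ENNReal.ofReal (2 ^ (d - 1) * 4 * (2 * C)) *
          ENNReal.ofReal (aw (((d : ℝ) - 1) / 2 + s) R m 0 σ) ∂(surf d) := by
        refine lintegral_mono_ae ?_
        filter_upwards [ae_restrict_of_ae surf_ae, ae_restrict_mem (measurableSet_half m)]
          with σ hσ hd
        rw [← ENNReal.ofReal_mul (by positivity)]
        exact ENNReal.ofReal_le_ofReal (fast_kernel H hσ hd R)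
    _ = ENNReal.ofReal (2 ^ (d - 1) * 4 * (2 * C)) * ∫⁻ σ in {σ : Vec d | 0 < dot m σ},
          ENNReal.ofReal (aw (((d : ℝ) - 1) / 2 + s) R m 0 σ) ∂(surf d) := by
        rw [lintegral_const_mul' _ _ ENNReal.ofReal_ne_top]
    _ ≤ ENNReal.ofReal (2 ^ (d - 1) * 4 * (2 * C)) * ENNReal.ofReal (Ca * R ^ (2 * s)) := by
        refine mul_le_mul_right ?_ _
        refine (setLIntegral_le_lintegral _ _).trans ?_
        rw [← ofReal_integral_eq_lintegral_ofReal hint hnn]
        exact ENNReal.ofReal_le_ofReal hle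
    _ = _ := by
        rw [← ENNReal.ofReal_mul (by positivity)]
        congr 1; ring

lemma fast_Kn0 {γ : ℝ} {b : ℝ → ℝ} {C β ε : ℝ} (hC : AngBound b C β) (hε : 0 < ε)
    {m σ : Vec d} (hσ : nsq σ = 1) (hm : 0 < dot m σ) : 0 ≤ Kn d γ (bt b ε) (co m σ) := by
  have h1 := co_pos hm
  have h2 := co_le_one (m := m) hσ
  unfold Kn
  refine mul_nonneg (mul_nonneg (by positivity) (Real.rpow_nonneg h1.le _)) (bt_nonneg hC hε ?_ ?_)
  · nlinarith
  · nlinarith

/-- the pointwise gain, `X < 1/4` -/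
private lemma fast_taylor {p : ℕ} {L₁ : ℝ}
    (hL : ∀ X Y : ℝ, 0 ≤ X → X < 1 / 4 → |Y| ≤ 2 * Real.sqrt X →
      0 < 1 + X + Y ∧ 0 < 1 + X - Y ∧
      ((1 + X + Y) ^ p)⁻¹ + ((1 + X - Y) ^ p)⁻¹ ≤ 2 * (1 + L₁ * X))
    {g : Vec d → ℝ} (hg0 : ∀ u, 0 ≤ g u) {v : Vec d}
    (hψ : ∀ u, g u * (1 + nsq u) ^ p ≤ g v * (1 + nsq v) ^ p) {m σ : Vec d}
    (hm : 0 < dot m σ) (hX : nsq (hh σ m) / (1 + nsq v) < 1 / 4) :
    g (v + hh σ m) + g (v + -(hh σ m)) ≤
      g v * (2 * (1 + L₁ * (nsq (hh σ m) / (1 + nsq v)))) := by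
  set h := hh σ m with hh_def
  set a := 1 + nsq v with ha_def
  have ha : 0 < a := by have := sq_nonneg' v; rw [ha_def]; linarith
  have ha' : 1 + nsq v ≠ 0 := ha.ne'
  set X := nsq h / a with hXd
  have hX0 : 0 ≤ X := div_nonneg (sq_nonneg' _) ha.le
  set Y := 2 * dot v h / a with hY
  have hY2 : Y ^ 2 ≤ 4 * X := by
    have h5 := dot_sq_le v h
    have h6 : nsq v ≤ a := by rw [ha_def]; linarith
    have h7 : dot v h ^ 2 ≤ a * nsq h := h5.trans (mul_le_mul_of_nonneg_right h6 (sq_nonneg' _))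
    rw [hY, hXd, div_pow, mul_pow, div_le_iff₀ (by positivity)]
    have : 4 * (nsq h / a) * a ^ 2 = 4 * (a * nsq h) := by field_simp
    rw [this]
    linarith
  have hYabs : |Y| ≤ 2 * Real.sqrt X := by
    rw [show 2 * Real.sqrt X = Real.sqrt (4 * X) by
      rw [Real.sqrt_mul (by norm_num), show Real.sqrt 4 = 2 by
        rw [show (4 : ℝ) = 2 ^ 2 by norm_num]; exact Real.sqrt_sq (by norm_num)]]
    exact Real.abs_le_sqrt hY2
  obtain ⟨p1, p2, h8⟩ := hL X Y hX0 hX hYabs
  have e1 : 1 + nsq (v + h) = a * (1 + X + Y) := by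
    rw [hh_def, one_add_nsq_add v hm, ← dot_v_hh v hm, ← hh_def, hXd, hY, ha_def]
    field_simp
  have e2 : 1 + nsq (v + -h) = a * (1 + X - Y) := by
    rw [← sub_eq_add_neg, hh_def, one_add_nsq_sub v hm, ← dot_v_hh v hm, ← hh_def, hXd, hY,
      ha_def]
    field_simp
  have g1 := fast_pt hψ p1 e1
  have g2 := fast_pt hψ p2 e2
  calc g (v + h) + g (v + -h) ≤ g v * ((1 + X + Y) ^ p)⁻¹ + g v * ((1 + X - Y) ^ p)⁻¹ :=
        add_le_add g1 g2
    _ = g v * (((1 + X + Y) ^ p)⁻¹ + ((1 + X - Y) ^ p)⁻¹) := by ring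
    _ ≤ _ := mul_le_mul_of_nonneg_left h8 (hg0 v)

/-- the symmetrised gain of a fast velocity -/
private lemma fast_gain {γ s : ℝ} {b : ℝ → ℝ} {C Ca : ℝ} (H : Hyp d γ s b C Ca) {p : ℕ} {L₁ : ℝ}
    (hL₁ : 0 ≤ L₁)
    (hL : ∀ X Y : ℝ, 0 ≤ X → X < 1 / 4 → |Y| ≤ 2 * Real.sqrt X →
      0 < 1 + X + Y ∧ 0 < 1 + X - Y ∧
      ((1 + X + Y) ^ p)⁻¹ + ((1 + X - Y) ^ p)⁻¹ ≤ 2 * (1 + L₁ * X))
    {θ L : ℝ} (hθ : θ ≤ 1 / 4) {g : Vec d → ℝ} (hgm : Measurable g)
    (hg0 : ∀ u, 0 ≤ g u) {v : Vec d}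
    (hψ : ∀ u, g u * (1 + nsq u) ^ p ≤ g v * (1 + nsq v) ^ p) {m : Vec d} (hm : m ≠ 0)
    (hfast : L * (1 + nsq v) < nsq (v - m)) {ε : ℝ} (hε : 0 < ε) :
    GMg γ b ε g (RegS θ L v) v m ≤ ENNReal.ofReal (g v) *
      ∫⁻ σ in {σ : Vec d | 0 < dot m σ},
        (if nsq m / (1 + nsq v) * ((1 - co m σ ^ 2) / co m σ ^ 2) < θ then
          ENNReal.ofReal (Kn d γ (bt b ε) (co m σ) *
            (1 + L₁ * (nsq m / (1 + nsq v) * ((1 - co m σ ^ 2) / co m σ ^ 2)))) else 0)
        ∂(surf d) := by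
  classical
  have hgv := hg0 v
  have ha : 0 < 1 + nsq v := by have := sq_nonneg' v; linarith
  set Q := nsq m / (1 + nsq v) with hQ
  have hQ0 : 0 ≤ Q := div_nonneg (sq_nonneg' m) ha.le
  let K : ℝ → ℝ≥0∞ := fun c => ENNReal.ofReal (Kn d γ (bt b ε) c)
  let G : Vec d → ℝ≥0∞ := fun h => if (v - m, v + h) ∈ RegS θ L v then
    ENNReal.ofReal (g (v + h)) else 0
  let F : ℝ → ℝ := fun c => g v * (1 + L₁ * (Q * ((1 - c ^ 2) / c ^ 2)))
  let RR : ℝ → ℝ≥0∞ := fun c => if Q * ((1 - c ^ 2) / c ^ 2) < θ then ENNReal.ofReal (F c) else 0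
  have hbt := measurable_bt (b := b) H.bm ε
  have hKm' : Measurable (Kn d γ (bt b ε)) := by
    unfold Kn
    have h1 : Measurable fun c : ℝ => c ^ (-2 - γ) := measurable_id.pow_const _
    have h2 : Measurable fun c : ℝ => bt b ε (2 * c ^ 2 - 1) := hbt.comp (by fun_prop)
    exact (measurable_const.mul h1).mul h2
  have hKm : Measurable K := hKm'.ennreal_ofReal
  have hXm : Measurable fun c : ℝ => Q * ((1 - c ^ 2) / c ^ 2) :=
    measurable_const.mul ((measurable_const.sub (measurable_id.pow_const 2)).div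
      (measurable_id.pow_const 2))
  have hGm : Measurable G := by
    refine Measurable.ite ?_ ?_ measurable_const
    · exact (measurable_const.prodMk (measurable_const.add measurable_id))
        (measurableSet_RegS θ L v)
    · exact (hgm.comp (measurable_const.add measurable_id)).ennreal_ofReal
  have hFm : Measurable F := measurable_const.mul (measurable_const.add (measurable_const.mul hXm))
  have hRRm : Measurable RR :=
    Measurable.ite (measurableSet_lt hXm measurable_const) hFm.ennreal_ofReal measurable_const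
  have hpt : ∀ σ : Vec d, nsq σ = 1 → 0 < dot m σ →
      G (hh σ m) + G (-(hh σ m)) ≤ 2 * RR (co m σ) := by
    intro σ hσ hmσ
    have hX : nsq (hh σ m) / (1 + nsq v) = Q * ((1 - co m σ ^ 2) / co m σ ^ 2) := by
      rw [nsq_hh hσ hmσ, hQ]; ring
    have hzero : ∀ k : Vec d, nsq k = nsq (hh σ m) →
        ¬ (Q * ((1 - co m σ ^ 2) / co m σ ^ 2) < θ) → G k = 0 := by
      intro k hk hc
      have : (v - m, v + k) ∉ RegS θ L v := by
        intro hmem
        apply hmem.2
        refine ⟨hfast, ?_⟩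
        change θ * (1 + nsq v) ≤ nsq (v + k - v)
        rw [add_sub_cancel_left, hk]
        rw [← hX, not_lt, le_div_iff₀ ha] at hc
        exact hc
      exact if_neg this
    by_cases hc : Q * ((1 - co m σ ^ 2) / co m σ ^ 2) < θ
    · have hRR : RR (co m σ) = ENNReal.ofReal (F (co m σ)) := if_pos hc
      rw [hRR]
      have hGle : ∀ k, G k ≤ ENNReal.ofReal (g (v + k)) := by
        intro k
        by_cases hk : (v - m, v + k) ∈ RegS θ L v
        · exact le_of_eq (if_pos hk)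
        · exact le_of_eq_of_le (if_neg hk) zero_le
      have h1 := fast_taylor hL hg0 hψ hmσ (by rw [hX]; linarith)
      rw [hX] at h1
      have h6 : (2 : ℝ≥0∞) * ENNReal.ofReal (F (co m σ)) = ENNReal.ofReal (2 * F (co m σ)) := by
        rw [ENNReal.ofReal_mul (p := 2) (by norm_num)]
        simp
      rw [h6]
      refine (add_le_add (hGle _) (hGle _)).trans ?_
      rw [← ENNReal.ofReal_add (hg0 _) (hg0 _)]
      refine ENNReal.ofReal_le_ofReal (h1.trans (le_of_eq ?_))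
      simp only [F]; ring
    · rw [hzero _ rfl hc, hzero _ (Pool.Agent.H25.Kin.sq_neg _) hc]
      simp
  have hGM : GMg γ b ε g (RegS θ L v) v m =
      ∫⁻ σ in {σ : Vec d | 0 < dot m σ}, K (co m σ) * G (hh σ m) ∂(surf d) := by
    unfold GMg
    apply lintegral_congr
    intro σ
    by_cases hM : (v - m, v + hh σ m) ∈ RegS θ L v
    · simp only [K, G, if_pos hM]
      rw [ENNReal.ofReal_mul' (hg0 _)]
    · simp only [K, G, if_neg hM, mul_zero]
  rw [hGM]
  refine (refl_avg H.hd1 hm hKm hGm hRRm hpt).trans ?_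
  rw [← lintegral_const_mul' _ _ ENNReal.ofReal_ne_top]
  refine lintegral_mono_ae ?_
  filter_upwards [ae_restrict_of_ae surf_ae, ae_restrict_mem (measurableSet_half m)]
    with σ hσ hmσ
  have hK0 := fast_Kn0 (γ := γ) H.bd hε hσ hmσ
  by_cases hc : Q * ((1 - co m σ ^ 2) / co m σ ^ 2) < θ
  · have hRR : RR (co m σ) = ENNReal.ofReal (F (co m σ)) := if_pos hc
    rw [hRR, if_pos hc, ← ENNReal.ofReal_mul hgv]
    show ENNReal.ofReal _ * ENNReal.ofReal _ ≤ _
    rw [← ENNReal.ofReal_mul hK0]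
    refine ENNReal.ofReal_le_ofReal (le_of_eq ?_)
    simp only [F]; ring
  · have hRR : RR (co m σ) = 0 := if_neg hc
    rw [hRR, mul_zero]
    exact zero_le

/-- the second order term -/
private lemma fast_second {γ s : ℝ} {b : ℝ → ℝ} {C Ca : ℝ} (H : Hyp d γ s b C Ca) {L₁ : ℝ}
    (hL₁ : 0 ≤ L₁) {θ Q : ℝ} (hθ : 0 < θ) (hθ1 : θ ≤ 1 / 4) (hQ : 0 < Q) {m : Vec d} (hm : m ≠ 0)
    {ε u₁ : ℝ} (hε : 0 < ε) (hu : u₁ = max (θ / Q) ε) :
    ∫⁻ σ in {σ : Vec d | 0 < dot m σ},
        ENNReal.ofReal (if Q * ((1 - co m σ ^ 2) / co m σ ^ 2) < θ then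
          Kn d γ (bt b ε) (co m σ) * (L₁ * (Q * ((1 - co m σ ^ 2) / co m σ ^ 2))) else 0)
        ∂(surf d) ≤
      ENNReal.ofReal (16 * L₁ * θ * ((2 ^ (d - 1) * 4 * (2 * C)) * Ca) * u₁ ^ (-s) +
        2 ^ (d - 1) * C * L₁ * (surf d univ).toReal) := by
  have hC0 : 0 ≤ C := H.bd.1
  have hCa0 : 0 ≤ Ca := H.an.1
  have hs := H.hs
  have hs1 := H.hs1
  have hu0 : 0 < θ / Q := by positivity
  set u₀ := θ / Q with hu₀
  have hu1 : 0 < u₁ := by rw [hu]; exact lt_max_of_lt_left hu0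
  set A := (2 ^ (d - 1) * 4 * (2 * C)) * Ca with hA
  have hA0 : 0 ≤ A := by positivity
  have hup : 0 < u₁ ^ (-s) := Real.rpow_pos_of_pos hu1 _
  rcases lt_or_ge ε (4 * u₀) with hcase | hcase
  · -- small cut-off
    set R := Real.sqrt (1 / u₀) with hR
    have hR2 : R ^ 2 = 1 / u₀ := Real.sq_sqrt (by positivity)
    have hR0 : 0 < R := Real.sqrt_pos.2 (by positivity)
    have h1 := fast_kint H hm ε hR0
    calc ∫⁻ σ in {σ : Vec d | 0 < dot m σ},
          ENNReal.ofReal (if Q * ((1 - co m σ ^ 2) / co m σ ^ 2) < θ then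
            Kn d γ (bt b ε) (co m σ) * (L₁ * (Q * ((1 - co m σ ^ 2) / co m σ ^ 2))) else 0)
          ∂(surf d)
        ≤ ∫⁻ σ in {σ : Vec d | 0 < dot m σ}, ENNReal.ofReal (4 * L₁ * θ) * ENNReal.ofReal
          (Kn d γ (bt b ε) (co m σ) * min (R ^ 2 * (1 - co m σ)) 1) ∂(surf d) := by
          refine lintegral_mono_ae ?_
          filter_upwards [ae_restrict_of_ae surf_ae, ae_restrict_mem (measurableSet_half m)]
            with σ hσ hmσ
          have hK0 := fast_Kn0 (γ := γ) H.bd hε hσ hmσ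
          have hc0 := co_pos hmσ
          have hc1 := co_le_one (m := m) hσ
          rw [← ENNReal.ofReal_mul (by positivity)]
          refine ENNReal.ofReal_le_ofReal ?_
          have hmn0 : 0 ≤ min (R ^ 2 * (1 - co m σ)) 1 :=
            le_min (mul_nonneg (sq_nonneg _) (by linarith)) zero_le_one
          split_ifs with hcond
          · set c := co m σ with hc
            rcases lt_or_ge (2 * c ^ 2 - 1) 0 with h2 | h2
            · have : Kn d γ (bt b ε) c = 0 := by
                unfold Kn; rw [bt_neg h2, mul_zero]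
              rw [this, zero_mul, zero_mul, mul_zero]
            · have h3 : (1 - c ^ 2) / c ^ 2 ≤ 4 * (1 - c) := by
                rw [div_le_iff₀ (by positivity)]
                nlinarith
              have h4 : 1 - c ≤ (1 - c ^ 2) / c ^ 2 := by
                rw [le_div_iff₀ (by positivity)]
                have : c ^ 2 ≤ 1 := by nlinarith
                nlinarith
              have h5 : Q * (1 - c) < θ := (mul_le_mul_of_nonneg_left h4 hQ.le).trans_lt hcond
              have h6 : R ^ 2 * (1 - c) = Q * (1 - c) / θ := by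
                rw [hR2, hu₀]; field_simp
              have h7 : min (R ^ 2 * (1 - c)) 1 = Q * (1 - c) / θ := by
                rw [h6]
                exact min_eq_left ((div_le_one hθ).2 h5.le)
              rw [h7]
              have h8 : Q * ((1 - c ^ 2) / c ^ 2) ≤ Q * (4 * (1 - c)) :=
                mul_le_mul_of_nonneg_left h3 hQ.le
              calc Kn d γ (bt b ε) c * (L₁ * (Q * ((1 - c ^ 2) / c ^ 2)))
                  ≤ Kn d γ (bt b ε) c * (L₁ * (Q * (4 * (1 - c)))) := by gcongr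
                _ = 4 * L₁ * θ * (Kn d γ (bt b ε) c * (Q * (1 - c) / θ)) := by
                    field_simp
          · positivity
      _ = ENNReal.ofReal (4 * L₁ * θ) * ∫⁻ σ in {σ : Vec d | 0 < dot m σ}, ENNReal.ofReal
          (Kn d γ (bt b ε) (co m σ) * min (R ^ 2 * (1 - co m σ)) 1) ∂(surf d) := by
          rw [lintegral_const_mul' _ _ ENNReal.ofReal_ne_top]
      _ ≤ ENNReal.ofReal (4 * L₁ * θ) * ENNReal.ofReal (A * R ^ (2 * s)) := mul_le_mul_right h1 _
      _ = ENNReal.ofReal (4 * L₁ * θ * (A * R ^ (2 * s))) := by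
          rw [← ENNReal.ofReal_mul (by positivity)]
      _ ≤ _ := by
          refine ENNReal.ofReal_le_ofReal ?_
          have hRs : R ^ (2 * s) ≤ 4 * u₁ ^ (-s) := by
            have e1 : R ^ (2 * s) = u₀ ^ (-s) := by
              rw [Real.rpow_mul hR0.le, Real.rpow_ofNat, hR2, one_div, Real.inv_rpow hu0.le,
                ← Real.rpow_neg hu0.le]
            have e2 : u₁ / 4 ≤ u₀ := by
              rw [hu]
              rcases max_cases u₀ ε with h | h
              · rw [h.1]; linarith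
              · rw [h.1]; linarith
            have e3 : u₀ ^ (-s) ≤ (u₁ / 4) ^ (-s) :=
              Real.rpow_le_rpow_of_nonpos (by positivity) e2 (by linarith)
            have e4 : (u₁ / 4) ^ (-s) = 4 ^ s * u₁ ^ (-s) := by
              rw [Real.div_rpow hu1.le (by norm_num), Real.rpow_neg (by norm_num : (0 : ℝ) ≤ 4),
                div_inv_eq_mul, mul_comm]
            have e5 : (4 : ℝ) ^ s ≤ 4 := by
              calc (4 : ℝ) ^ s ≤ 4 ^ (1 : ℝ) :=
                    Real.rpow_le_rpow_of_exponent_le (by norm_num) hs1.le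
                _ = 4 := Real.rpow_one _
            rw [e1]
            exact (e3.trans_eq e4).trans (mul_le_mul_of_nonneg_right e5 hup.le)
          have h9 : 4 * L₁ * θ * (A * R ^ (2 * s)) ≤ 4 * L₁ * θ * (A * (4 * u₁ ^ (-s))) := by
            gcongr
          have h10 : 0 ≤ 2 ^ (d - 1) * C * L₁ * (surf d univ).toReal := by positivity
          linarith
  · -- large cut-off: the integrand is bounded
    calc ∫⁻ σ in {σ : Vec d | 0 < dot m σ},
          ENNReal.ofReal (if Q * ((1 - co m σ ^ 2) / co m σ ^ 2) < θ then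
            Kn d γ (bt b ε) (co m σ) * (L₁ * (Q * ((1 - co m σ ^ 2) / co m σ ^ 2))) else 0)
          ∂(surf d)
        ≤ ∫⁻ _σ in {σ : Vec d | 0 < dot m σ}, ENNReal.ofReal (2 ^ (d - 1) * C * L₁)
            ∂(surf d) := by
          refine lintegral_mono_ae ?_
          filter_upwards [ae_restrict_of_ae surf_ae, ae_restrict_mem (measurableSet_half m)]
            with σ hσ hmσ
          have hK0 := fast_Kn0 (γ := γ) H.bd hε hσ hmσ
          have hc0 := co_pos hmσ
          have hc1 := co_le_one (m := m) hσ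
          refine ENNReal.ofReal_le_ofReal ?_
          split_ifs with hcond
          · set c := co m σ with hc
            rcases lt_or_ge (2 * c ^ 2 - 1) 0 with h2 | h2
            · have : Kn d γ (bt b ε) c = 0 := by
                unfold Kn; rw [bt_neg h2, mul_zero]
              rw [this, zero_mul]
              positivity
            · have h4 : 1 - c ≤ (1 - c ^ 2) / c ^ 2 := by
                rw [le_div_iff₀ (by positivity)]
                have : c ^ 2 ≤ 1 := by nlinarith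
                nlinarith
              have h5 : Q * (1 - c) < θ := (mul_le_mul_of_nonneg_left h4 hQ.le).trans_lt hcond
              have h6 : 1 - c < u₀ := by
                rw [hu₀, lt_div_iff₀ hQ]; linarith
              have h7 : ¬ (2 * c ^ 2 - 1 ≤ 1 - ε) := by
                intro h8
                nlinarith
              have hB0 := H.β0
              have h9 : bt b ε (2 * c ^ 2 - 1) ≤ C := by
                unfold bt bcut
                rw [if_neg h7]
                have h10 : (if 0 < 2 * c ^ 2 - 1 then (0 : ℝ) else 0) = 0 := by split_ifs <;> rfl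
                rw [h10, zero_add, if_pos h2]
                split_ifs with q2
                · refine (H.bd.2 (-(2 * c ^ 2 - 1)) (by nlinarith) (by linarith)).2.trans ?_
                  have : (1 - -(2 * c ^ 2 - 1)) ^ (-(((d : ℝ) - 1) / 2 + s)) ≤ 1 :=
                    Real.rpow_le_one_of_one_le_of_nonpos (by linarith) (by linarith)
                  nlinarith
                · exact hC0
              have hbn := bt_nonneg (ε := ε) H.bd hε (x := 2 * c ^ 2 - 1) (by linarith)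
                (by nlinarith)
              have h8 : c ^ (-2 - γ) ≤ 4 := by
                have hg1 := H.g1
                have hg2 := H.g2
                have hcc : (1 / 2 : ℝ) ≤ c ^ 2 := by linarith
                have h9 : c ^ (-2 - γ) = (c ^ 2) ^ ((-2 - γ) / 2) := by
                  rw [← Real.rpow_natCast c 2, ← Real.rpow_mul hc0.le]
                  congr 1; push_cast; ring
                rw [h9]
                calc (c ^ 2) ^ ((-2 - γ) / 2) ≤ (1 / 2 : ℝ) ^ ((-2 - γ) / 2) :=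
                      Real.rpow_le_rpow_of_nonpos (by norm_num) hcc (by linarith)
                  _ ≤ (1 / 2 : ℝ) ^ (-2 : ℝ) :=
                      Real.rpow_le_rpow_of_exponent_ge (by norm_num) (by norm_num) (by linarith)
                  _ = 4 := by
                      rw [Real.rpow_neg (by norm_num)]; norm_num
              have h10 : 0 ≤ c ^ (-2 - γ) := Real.rpow_nonneg hc0.le _
              have h11 : Kn d γ (bt b ε) c ≤ 2 ^ (d - 1) * 4 * C := by
                unfold Kn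
                exact mul_le_mul (mul_le_mul_of_nonneg_left h8 (by positivity)) h9 hbn
                  (by positivity)
              have h12 : 0 ≤ Q * ((1 - c ^ 2) / c ^ 2) :=
                mul_nonneg hQ.le ((by linarith : (0 : ℝ) ≤ 1 - c).trans h4)
              calc Kn d γ (bt b ε) c * (L₁ * (Q * ((1 - c ^ 2) / c ^ 2)))
                  ≤ (2 ^ (d - 1) * 4 * C) * (L₁ * (1 / 4)) := by
                    refine mul_le_mul h11 ?_ (by positivity) (by positivity)
                    exact mul_le_mul_of_nonneg_left (by linarith) hL₁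
                _ = 2 ^ (d - 1) * C * L₁ := by ring
          · positivity
      _ = ENNReal.ofReal (2 ^ (d - 1) * C * L₁) * surf d {σ : Vec d | 0 < dot m σ} := by
          rw [setLIntegral_const]
      _ ≤ ENNReal.ofReal (2 ^ (d - 1) * C * L₁) * surf d univ := by gcongr; exact subset_univ _
      _ = ENNReal.ofReal (2 ^ (d - 1) * C * L₁ * (surf d univ).toReal) := by
          rw [ENNReal.ofReal_mul (p := 2 ^ (d - 1) * C * L₁) (by positivity),
            ENNReal.ofReal_toReal (measure_ne_top _ _)]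
      _ ≤ _ := by
          refine ENNReal.ofReal_le_ofReal ?_
          have : 0 ≤ 16 * L₁ * θ * A * u₁ ^ (-s) := by positivity
          linarith

private lemma fast_first {γ s : ℝ} {b : ℝ → ℝ} {C Ca : ℝ} (H : Hyp d γ s b C Ca) {m : Vec d}
    (hm : m ≠ 0) {ε : ℝ} (hε : 0 < ε) :
    ∫⁻ σ in {σ : Vec d | 0 < dot m σ}, ENNReal.ofReal
      (Kn d γ (bt b ε) (co m σ) * (1 - co m σ ^ ((d : ℝ) + γ))) ∂(surf d) ≤
      ENNReal.ofReal (((d : ℝ) + γ + 1) * ((2 ^ (d - 1) * 4 * (2 * C)) * Ca)) := by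
  have hd2 : (2 : ℝ) ≤ d := by exact_mod_cast H.hd
  have he : 0 ≤ (d : ℝ) + γ := by have := H.g1; linarith
  have h1 := fast_kint H hm ε (R := 1) one_pos
  rw [Real.one_rpow, mul_one] at h1
  calc ∫⁻ σ in {σ : Vec d | 0 < dot m σ}, ENNReal.ofReal
        (Kn d γ (bt b ε) (co m σ) * (1 - co m σ ^ ((d : ℝ) + γ))) ∂(surf d)
      ≤ ∫⁻ σ in {σ : Vec d | 0 < dot m σ}, ENNReal.ofReal ((d : ℝ) + γ + 1) * ENNReal.ofReal
        (Kn d γ (bt b ε) (co m σ) * min (1 ^ 2 * (1 - co m σ)) 1) ∂(surf d) := by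
        refine lintegral_mono_ae ?_
        filter_upwards [ae_restrict_of_ae surf_ae, ae_restrict_mem (measurableSet_half m)]
          with σ hσ hmσ
        have hK0 := fast_Kn0 (γ := γ) H.bd hε hσ hmσ
        have hc0 := co_pos hmσ
        have hc1 := co_le_one (m := m) hσ
        rw [← ENNReal.ofReal_mul (by positivity)]
        refine ENNReal.ofReal_le_ofReal ?_
        have h2 := bernoulli_ineq hc0 hc1 he
        have h3 : min (1 ^ 2 * (1 - co m σ)) 1 = 1 - co m σ := by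
          rw [one_pow, one_mul]; exact min_eq_left (by linarith)
        rw [h3]
        calc Kn d γ (bt b ε) (co m σ) * (1 - co m σ ^ ((d : ℝ) + γ))
            ≤ Kn d γ (bt b ε) (co m σ) * (((d : ℝ) + γ + 1) * (1 - co m σ)) :=
              mul_le_mul_of_nonneg_left h2 hK0
          _ = _ := by ring
    _ = ENNReal.ofReal ((d : ℝ) + γ + 1) * ∫⁻ σ in {σ : Vec d | 0 < dot m σ}, ENNReal.ofReal
        (Kn d γ (bt b ε) (co m σ) * min (1 ^ 2 * (1 - co m σ)) 1) ∂(surf d) := by
        rw [lintegral_const_mul' _ _ ENNReal.ofReal_ne_top]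
    _ ≤ ENNReal.ofReal ((d : ℝ) + γ + 1) *
        ENNReal.ofReal ((2 ^ (d - 1) * 4 * (2 * C)) * Ca) := mul_le_mul_right h1 _
    _ = _ := by rw [← ENNReal.ofReal_mul (by positivity)]

theorem fast_boundg {γ s : ℝ} {b : ℝ → ℝ} {C Ca cb : ℝ} (HL : HypL d γ s b C Ca cb) (p : ℕ) :
    ∃ θ : ℝ, 0 < θ ∧ θ ≤ 1 / 4 ∧ ∀ K₂ : ℝ, 0 ≤ K₂ → ∃ L : ℝ, 1 ≤ L ∧ ∃ ε₀ : ℝ, 0 < ε₀ ∧
      ∀ g : Vec d → ℝ, Measurable g → (∀ u, 0 ≤ g u) → ∀ v : Vec d,
      (∀ u, g u * (1 + nsq u) ^ p ≤ g v * (1 + nsq v) ^ p) → ∀ m : Vec d, m ≠ 0 →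
      L * (1 + nsq v) < nsq (v - m) → ∀ ε : ℝ, 0 < ε → ε ≤ ε₀ →
      GMg γ b ε g (RegS θ L v) v m + ENNReal.ofReal (K₂ * g v) ≤
        ENNReal.ofReal (g v) * BB b ε (dir m) := by
  have H := HL.H
  have hd2 : (2 : ℝ) ≤ d := by exact_mod_cast H.hd
  have he : 0 ≤ (d : ℝ) + γ := by have := H.g1; linarith
  have hC0 : 0 ≤ C := H.bd.1
  have hCa0 : 0 ≤ Ca := H.an.1
  have hs := H.hs
  obtain ⟨L₁, hL₁, hL⟩ := taylor_ineq p
  obtain ⟨c₄, hc₄, hloss⟩ := loss_low HL
  set A := (2 ^ (d - 1) * 4 * (2 * C)) * Ca with hA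
  have hA0 : 0 ≤ A := by positivity
  set θ : ℝ := min (1 / 4) (c₄ / (32 * L₁ * A + 1)) with hθ
  have hθ0 : 0 < θ := lt_min (by norm_num) (by positivity)
  have hθ1 : θ ≤ 1 / 4 := min_le_left _ _
  have hθ2 : 16 * L₁ * θ * A ≤ c₄ / 2 := by
    have h1 : θ * (32 * L₁ * A + 1) ≤ c₄ := by
      have := min_le_right (1 / 4) (c₄ / (32 * L₁ * A + 1))
      rwa [← hθ, le_div_iff₀ (by positivity)] at this
    nlinarith
  refine ⟨θ, hθ0, hθ1, fun K₂ hK₂ => ?_⟩
  set C₂ : ℝ := ((d : ℝ) + γ + 1) * A with hC₂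
  have hC₂0 : 0 ≤ C₂ := by positivity
  set C₆ : ℝ := 2 ^ (d - 1) * C * L₁ * (surf d univ).toReal with hC₆
  have hC₆0 : 0 ≤ C₆ := by positivity
  set T : ℝ := (2 * (C₂ + K₂ + C₆) + 1) / c₄ with hT
  have hT0 : 0 < T := by positivity
  set us : ℝ := min (1 / 256) (T ^ (-(1 / s))) with hus
  have hus0 : 0 < us := lt_min (by norm_num) (Real.rpow_pos_of_pos hT0 _)
  have hus1 : us ≤ 1 / 256 := min_le_left _ _
  have hubig : ∀ u : ℝ, 0 < u → u ≤ us → C₂ + K₂ + C₆ ≤ c₄ / 2 * u ^ (-s) := by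
    intro u hu hu1
    have h1 : u ≤ T ^ (-(1 / s)) := hu1.trans (min_le_right _ _)
    have h2 : (T ^ (-(1 / s))) ^ (-s) ≤ u ^ (-s) :=
      Real.rpow_le_rpow_of_nonpos hu h1 (by linarith)
    have h3 : (T ^ (-(1 / s))) ^ (-s) = T := by
      rw [← Real.rpow_mul hT0.le]
      have : -(1 / s) * -s = 1 := by field_simp
      rw [this, Real.rpow_one]
    rw [h3] at h2
    have h4 : c₄ / 2 * T = C₂ + K₂ + C₆ + 1 / 2 := by
      rw [hT]; field_simp
    have h5 : c₄ / 2 * T ≤ c₄ / 2 * u ^ (-s) := mul_le_mul_of_nonneg_left h2 (by linarith)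
    linarith
  set L : ℝ := 2 * (θ / us + 1) + 2 with hLdef
  have hθus : 0 < θ / us := by positivity
  refine ⟨L, by rw [hLdef]; linarith, us, hus0, ?_⟩
  intro g hgm hg0 v hψ m hm hfast ε hε hε1
  have hgv := hg0 v
  have ha : 0 < 1 + nsq v := by have := sq_nonneg' v; linarith
  -- `Q` is large
  have hQbig : θ / us < nsq m / (1 + nsq v) := by
    rw [lt_div_iff₀ ha]
    have h1 := nsq_sub v m
    have h2 := nsq_add v m
    have h3 := sq_nonneg' (v + m)
    have h4 : nsq (v - m) ≤ 2 * nsq v + 2 * nsq m := by linarith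
    have h5 : 0 ≤ nsq v := sq_nonneg' v
    rw [hLdef] at hfast
    nlinarith
  set Q := nsq m / (1 + nsq v) with hQ
  have hQ0 : 0 < Q := hθus.trans hQbig
  set u₁ := max (θ / Q) ε with hu₁
  have hu₁0 : 0 < u₁ := lt_max_of_lt_right hε
  have hu₁s : u₁ ≤ us := by
    refine max_le ?_ hε1
    rw [div_le_iff₀ hQ0]
    rw [div_lt_iff₀ hus0] at hQbig
    linarith
  have hgain := fast_gain H hL₁ hL hθ1 hgm hg0 hψ hm hfast hε
  rw [← hQ] at hgain
  have hsecond := fast_second H hL₁ hθ0 hθ1 hQ0 hm hε hu₁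
  have hfirst := fast_first H hm hε
  have hJ := hloss m hm u₁ ε hu₁0 (hu₁s.trans hus1) hε (le_max_right _ _)
  have hcom : Measurable fun σ : Vec d => co m σ :=
    measurable_co.comp (measurable_const.prodMk measurable_id)
  have hbt := measurable_bt (b := b) H.bm ε
  have hKm' : Measurable (Kn d γ (bt b ε)) := by
    unfold Kn
    have h1 : Measurable fun c : ℝ => c ^ (-2 - γ) := measurable_id.pow_const _
    have h2 : Measurable fun c : ℝ => bt b ε (2 * c ^ 2 - 1) := hbt.comp (by fun_prop)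
    exact (measurable_const.mul h1).mul h2
  have hKco : Measurable fun σ : Vec d => Kn d γ (bt b ε) (co m σ) := hKm'.comp hcom
  have hpow : Measurable fun σ : Vec d => co m σ ^ ((d : ℝ) + γ) := hcom.pow_const _
  set J : ℝ≥0∞ := ∫⁻ σ in {σ : Vec d | 0 < dot m σ}, (if u₁ ≤ 1 - co m σ then ENNReal.ofReal
          (Kn d γ (bt b ε) (co m σ) * co m σ ^ ((d : ℝ) + γ)) else 0) ∂(surf d) with hJdef
  set A₁ : ℝ≥0∞ := ∫⁻ σ in {σ : Vec d | 0 < dot m σ}, (if u₁ ≤ 1 - co m σ then 0 else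
    ENNReal.ofReal (Kn d γ (bt b ε) (co m σ) * co m σ ^ ((d : ℝ) + γ))) ∂(surf d) with hA₁
  have hcset : MeasurableSet {σ : Vec d | u₁ ≤ 1 - co m σ} :=
    measurableSet_le measurable_const (measurable_const.sub hcom)
  have hmA : Measurable fun σ : Vec d => (if u₁ ≤ 1 - co m σ then (0 : ℝ≥0∞) else
      ENNReal.ofReal (Kn d γ (bt b ε) (co m σ) * co m σ ^ ((d : ℝ) + γ))) :=
    Measurable.ite hcset measurable_const (hKco.mul hpow).ennreal_ofReal
  have hBB : BB b ε (dir m) = A₁ + J := by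
    rw [← BB_eq H.hd γ H.bm ε hm, hA₁, hJdef, ← lintegral_add_left hmA]
    refine lintegral_congr fun σ => ?_
    by_cases h : u₁ ≤ 1 - co m σ
    · simp only [if_pos h, zero_add]
    · simp only [if_neg h, add_zero]
  have hm1 : Measurable fun σ : Vec d => ENNReal.ofReal
      (Kn d γ (bt b ε) (co m σ) * (1 - co m σ ^ ((d : ℝ) + γ))) :=
    (hKco.mul (measurable_const.sub hpow)).ennreal_ofReal
  -- the three parts of the gain
  have hsplit : ∫⁻ σ in {σ : Vec d | 0 < dot m σ},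
        (if Q * ((1 - co m σ ^ 2) / co m σ ^ 2) < θ then
          ENNReal.ofReal (Kn d γ (bt b ε) (co m σ) *
            (1 + L₁ * (Q * ((1 - co m σ ^ 2) / co m σ ^ 2)))) else 0) ∂(surf d) ≤
      A₁ + ENNReal.ofReal C₂ + ENNReal.ofReal (16 * L₁ * θ * A * u₁ ^ (-s) + C₆) := by
    refine le_trans ?_ (add_le_add (add_le_add (le_refl A₁) hfirst) hsecond)
    have hm2 : Measurable fun σ : Vec d => (if u₁ ≤ 1 - co m σ then (0 : ℝ≥0∞) else
        ENNReal.ofReal (Kn d γ (bt b ε) (co m σ) * co m σ ^ ((d : ℝ) + γ))) +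
        ENNReal.ofReal (Kn d γ (bt b ε) (co m σ) * (1 - co m σ ^ ((d : ℝ) + γ))) := hmA.add hm1
    rw [hA₁, ← lintegral_add_left hmA, ← lintegral_add_left hm2]
    refine lintegral_mono_ae ?_
    filter_upwards [ae_restrict_of_ae surf_ae, ae_restrict_mem (measurableSet_half m)]
      with σ hσ hmσ
    have hK0 := fast_Kn0 (γ := γ) H.bd hε hσ hmσ
    have hc0 := co_pos hmσ
    have hc1 := co_le_one (m := m) hσ
    by_cases hc : Q * ((1 - co m σ ^ 2) / co m σ ^ 2) < θ
    · have h4 : 1 - co m σ ≤ (1 - co m σ ^ 2) / co m σ ^ 2 := by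
        rw [le_div_iff₀ (by positivity)]
        have : co m σ ^ 2 ≤ 1 := by nlinarith
        nlinarith
      have h5 : Q * (1 - co m σ) < θ := (mul_le_mul_of_nonneg_left h4 hQ0.le).trans_lt hc
      have h6 : 1 - co m σ < θ / Q := by
        rw [lt_div_iff₀ hQ0]; linarith
      have h7 : ¬ (u₁ ≤ 1 - co m σ) := not_le.2 (h6.trans_le (le_max_left _ _))
      have hce : 0 ≤ co m σ ^ ((d : ℝ) + γ) := Real.rpow_nonneg hc0.le _
      have hce1 : co m σ ^ ((d : ℝ) + γ) ≤ 1 := Real.rpow_le_one hc0.le hc1 he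
      have hX0 : 0 ≤ Q * ((1 - co m σ ^ 2) / co m σ ^ 2) :=
        mul_nonneg hQ0.le ((by linarith : (0 : ℝ) ≤ 1 - co m σ).trans h4)
      simp only [if_pos hc, if_neg h7]
      rw [← ENNReal.ofReal_add (mul_nonneg hK0 hce) (mul_nonneg hK0 (by linarith)),
        ← ENNReal.ofReal_add (add_nonneg (mul_nonneg hK0 hce) (mul_nonneg hK0 (by linarith)))
          (mul_nonneg hK0 (mul_nonneg hL₁ hX0))]
      refine ENNReal.ofReal_le_ofReal (le_of_eq ?_)
      ring
    · simp only [if_neg hc]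
      exact zero_le
  have hup : 0 < u₁ ^ (-s) := Real.rpow_pos_of_pos hu₁0 _
  calc GMg γ b ε g (RegS θ L v) v m + ENNReal.ofReal (K₂ * g v)
      ≤ ENNReal.ofReal (g v) * (A₁ + ENNReal.ofReal C₂ +
          ENNReal.ofReal (16 * L₁ * θ * A * u₁ ^ (-s) + C₆)) +
        ENNReal.ofReal (g v) * ENNReal.ofReal K₂ := by
        refine add_le_add (hgain.trans (mul_le_mul_right hsplit _)) ?_
        rw [mul_comm K₂, ENNReal.ofReal_mul hgv]
    _ = ENNReal.ofReal (g v) * (A₁ + ENNReal.ofReal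
          (C₂ + (16 * L₁ * θ * A * u₁ ^ (-s) + C₆) + K₂)) := by
        rw [← mul_add, ENNReal.ofReal_add (by positivity) hK₂,
          ENNReal.ofReal_add hC₂0 (by positivity)]
        congr 1
        ring
    _ ≤ ENNReal.ofReal (g v) * (A₁ + J) := by
        refine mul_le_mul_right (add_le_add le_rfl (le_trans (ENNReal.ofReal_le_ofReal ?_) hJ)) _
        have h1 := hubig u₁ hu₁0 hu₁s
        have h2 : 16 * L₁ * θ * A * u₁ ^ (-s) ≤ c₄ / 2 * u₁ ^ (-s) :=
          mul_le_mul_of_nonneg_right hθ2 hup.le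
        linarith
    _ = _ := by rw [hBB]

end Pool.Agent.H82.CM
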