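import Pool.Agent.H82.CM.SlowS
import Pool.Agent.H82.CM.Fast
import Pool.Agent.H82.BK.Main

/-!
# CombG: gain + absorption by the slow velocities ≤ loss + medium velocities
-/

set_option autoImplicit false

open MeasureTheory Set Filter Topology Pool.Agent.H25.Kin Pool.Agent.H82.BK
open scoped ENNReal

namespace Pool.Agent.H82.CM

variable {d : ℕ}

lemma measurableSet_SlowR (δ a₀ : ℝ) (v : Vec d) : MeasurableSet {z : Vec d | SlowR δ a₀ v z} := by
  unfold SlowR
  by_cases h : a₀ ≤ 1 + nsq v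
  · have e : {z : Vec d | a₀ ≤ 1 + nsq v ∧ nsq z ≤ δ ^ 2 * (1 + nsq v)} =
        {z | nsq z ≤ δ ^ 2 * (1 + nsq v)} := by ext z; simp [h]
    rw [e]
    exact (isClosed_le continuous_sq continuous_const).measurableSet
  · have e : {z : Vec d | a₀ ≤ 1 + nsq v ∧ nsq z ≤ δ ^ 2 * (1 + nsq v)} = ∅ := by ext z; simp [h]
    rw [e]
    exact MeasurableSet.empty

lemma measurableSet_MedR (δ a₀ L : ℝ) (v : Vec d) :
    MeasurableSet {z : Vec d | MedR δ a₀ L v z} := by
  have e : {z : Vec d | MedR δ a₀ L v z} =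
      {z | nsq z ≤ L * (1 + nsq v)} ∩ {z | SlowR δ a₀ v z}ᶜ := by
    ext z; simp [MedR]
  rw [e]
  exact (isClosed_le continuous_sq continuous_const).measurableSet.inter
    (measurableSet_SlowR δ a₀ v).compl

/-- the main part is at most the one of BK -/
private lemma comb_GM (γ : ℝ) (b : ℝ → ℝ) (ε : ℝ) (g : Vec d → ℝ) (θ L : ℝ) (v m : Vec d) :
    GMg γ b ε g (RegS θ L v) v m ≤ GM γ b ε g v m := by
  unfold GMg GM
  refine lintegral_mono fun σ => ?_
  dsimp only
  by_cases h : (v - m, v + hh σ m) ∈ RegS θ L v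
  · have h1 : MainR v (hh σ m) := by
      intro hc
      apply h.1
      refine ⟨hc.1, ?_⟩
      change (1 + nsq v) / 4 ≤ nsq (v + hh σ m - v)
      rw [add_sub_cancel_left]
      exact hc.2
    rw [if_pos h, if_pos h1]
  · rw [if_neg h]
    exact zero_le

theorem gain_le_lossg {γ s : ℝ} {b : ℝ → ℝ} {C Ca cb : ℝ} (HL : HypL d γ s b C Ca cb) {p : ℕ}
    (hp : (d : ℝ) + γ + 4 ≤ 2 * p) :
    ∃ K κ δ a₀ L ε₀ : ℝ, 0 ≤ K ∧ 0 < κ ∧ 0 < δ ∧ δ ≤ 1 ∧ 1 ≤ a₀ ∧ 1 ≤ L ∧ 0 < ε₀ ∧
    ∀ g : Vec d → ℝ, Measurable g → (∀ u, 0 ≤ g u) → ∀ v : Vec d,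
      (∀ u, g u * (1 + nsq u) ^ p ≤ g v * (1 + nsq v) ^ p) → ∀ ε : ℝ, 0 < ε → ε ≤ ε₀ →
      Gn γ b ε g v + ∫⁻ z in {z | SlowR δ a₀ v z},
          ENNReal.ofReal (κ * g v * (g z * len (v - z) ^ γ)) ≤
        Ls γ b ε g v + ∫⁻ z in {z | MedR δ a₀ L v z},
          ENNReal.ofReal (K * g v * (g z * len (v - z) ^ γ)) := by
  classical
  have H := HL.H
  have hs := H.hs
  obtain ⟨δ, hδ, hδ1, a₀, ha₀, κ, hκ, hslow⟩ := slow_boundg HL hp
  obtain ⟨K₁, hK₁, hmain⟩ := main_bound H p
  obtain ⟨θ, hθ, hθ1, hfast⟩ := fast_boundg HL p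
  obtain ⟨K₂, hK₂, hexc⟩ := exc_boundg H hp hθ
  obtain ⟨L, hL, ε₁, hε₁, hfast'⟩ := hfast K₂ hK₂
  set K : ℝ := K₁ * (3 + 2 * L) ^ s + K₂ with hK
  refine ⟨K, κ, δ, a₀, L, min ε₁ (1 / 64), by positivity, hκ, hδ, hδ1, ha₀, hL, by positivity, ?_⟩
  intro g hg hg0 v hψ ε hε hεle
  have hε1 : ε ≤ ε₁ := hεle.trans (min_le_left _ _)
  have hε2 : ε ≤ 1 / 64 := hεle.trans (min_le_right _ _)
  have hgv := hg0 v
  have ha : 0 < 1 + nsq v := by have := sq_nonneg' v; linarith
  have hsub : ∀ m : Vec d, v - (v - m) = m := fun m => sub_sub_cancel v m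
  set Sl : Vec d → ℝ≥0∞ := {z : Vec d | SlowR δ a₀ v z}.indicator
    (fun z => ENNReal.ofReal (κ * g v * (g z * len (v - z) ^ γ))) with hSl
  set Md : Vec d → ℝ≥0∞ := {z : Vec d | MedR δ a₀ L v z}.indicator
    (fun z => ENNReal.ofReal (K * g v * (g z * len (v - z) ^ γ))) with hMd
  have hlm : Measurable fun z : Vec d => len (v - z) ^ γ :=
    (continuous_len.comp (continuous_const.sub continuous_id)).measurable.pow_const γ
  have hSlm : Measurable Sl :=
    ((hg.mul hlm).const_mul _).ennreal_ofReal.indicator (measurableSet_SlowR δ a₀ v)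
  have hMdm : Measurable Md :=
    ((hg.mul hlm).const_mul _).ennreal_ofReal.indicator (measurableSet_MedR δ a₀ L v)
  have hpt : ∀ m : Vec d, m ≠ 0 →
      ENNReal.ofReal (len m ^ γ * g (v - m)) *
        (GMg γ b ε g (RegS θ L v) v m + GEg γ b ε g (RegS θ L v) v m) + Sl (v - m) ≤
        ENNReal.ofReal (len m ^ γ * g (v - m)) * (ENNReal.ofReal (g v) * BB b ε (dir m)) +
        Md (v - m) := by
    intro m hm
    have hlγ : 0 ≤ len m ^ γ := Real.rpow_nonneg (len_nonneg m) γ
    have hW : 0 ≤ len m ^ γ * g (v - m) := mul_nonneg hlγ (hg0 _)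
    have hE := hexc L hL g hg0 v hψ m ε hε
    by_cases hsl : SlowR δ a₀ v (v - m)
    · have h1 := hslow g hg hg0 v hψ m hm hsl ε hε hε2 (RegS θ L v)
      have h2 : Sl (v - m) = ENNReal.ofReal (len m ^ γ * g (v - m)) *
          ENNReal.ofReal (κ * g v) := by
        rw [hSl, indicator_of_mem (show v - m ∈ {z : Vec d | SlowR δ a₀ v z} from hsl), hsub,
          ← ENNReal.ofReal_mul hW]
        congr 1; ring
      rw [h2, ← mul_add]
      exact (mul_le_mul_right h1 _).trans le_self_add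
    · have h2 : Sl (v - m) = 0 := by
        rw [hSl, indicator_of_notMem (show v - m ∉ {z : Vec d | SlowR δ a₀ v z} from hsl)]
      rw [h2, add_zero]
      by_cases hfa : L * (1 + nsq v) < nsq (v - m)
      · have h1 := hfast' g hg hg0 v hψ m hm hfa ε hε hε1
        refine le_trans (mul_le_mul_right ?_ _) le_self_add
        exact (add_le_add_right hE _).trans h1
      · rw [not_lt] at hfa
        have hmed : v - m ∈ {z : Vec d | MedR δ a₀ L v z} := ⟨hfa, hsl⟩
        have h3 : Md (v - m) = ENNReal.ofReal (len m ^ γ * g (v - m)) *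
            ENNReal.ofReal (K * g v) := by
          rw [hMd, indicator_of_mem hmed, hsub, ← ENNReal.ofReal_mul hW]
          congr 1; ring
        rw [h3, ← mul_add]
        refine mul_le_mul_right ?_ _
        have h4 := (comb_GM γ b ε g θ L v m).trans (hmain g hg hg0 v hψ m hm ε hε)
        have hQ : (1 + nsq m / (1 + nsq v)) ^ s ≤ (3 + 2 * L) ^ s := by
          have hm0 : 0 ≤ nsq m := sq_nonneg' m
          have hv0 : 0 ≤ nsq v := sq_nonneg' v
          refine Real.rpow_le_rpow (by positivity) ?_ hs.le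
          have h5 : nsq m ≤ 2 * nsq v + 2 * nsq (v - m) := by
            have h6 := nsq_par v (v - m)
            rw [hsub m] at h6
            have h7 := sq_nonneg' (v + (v - m))
            linarith
          have h8 : nsq m / (1 + nsq v) ≤ 2 + 2 * L := by
            rw [div_le_iff₀ ha]
            nlinarith
          linarith
        calc GMg γ b ε g (RegS θ L v) v m + GEg γ b ε g (RegS θ L v) v m
            ≤ (ENNReal.ofReal (g v) * BB b ε (dir m) +
              ENNReal.ofReal (K₁ * g v * (1 + nsq m / (1 + nsq v)) ^ s)) +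
              ENNReal.ofReal (K₂ * g v) := add_le_add h4 hE
          _ = ENNReal.ofReal (g v) * BB b ε (dir m) +
              ENNReal.ofReal (K₁ * g v * (1 + nsq m / (1 + nsq v)) ^ s + K₂ * g v) := by
              rw [add_assoc, ← ENNReal.ofReal_add (by
                have : 0 ≤ (1 + nsq m / (1 + nsq v)) ^ s := Real.rpow_nonneg (by
                  have := sq_nonneg' m
                  positivity) _
                positivity) (by positivity)]
          _ ≤ ENNReal.ofReal (g v) * BB b ε (dir m) + ENNReal.ofReal (K * g v) := by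
              refine add_le_add_right (ENNReal.ofReal_le_ofReal ?_) _
              have := mul_le_mul_of_nonneg_left hQ (mul_nonneg hK₁ hgv)
              rw [hK]
              linarith
  have e1 : ∫⁻ z in {z | SlowR δ a₀ v z}, ENNReal.ofReal (κ * g v * (g z * len (v - z) ^ γ)) =
      ∫⁻ m, Sl (v - m) := by
    rw [lintegral_sub_left_eq_self Sl v, hSl, lintegral_indicator (measurableSet_SlowR δ a₀ v)]
  have e2 : ∫⁻ z in {z | MedR δ a₀ L v z}, ENNReal.ofReal (K * g v * (g z * len (v - z) ^ γ)) =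
      ∫⁻ m, Md (v - m) := by
    rw [lintegral_sub_left_eq_self Md v, hMd, lintegral_indicator (measurableSet_MedR δ a₀ L v)]
  have hSl' : Measurable fun m : Vec d => Sl (v - m) :=
    hSlm.comp (measurable_const.sub measurable_id)
  have hMd' : Measurable fun m : Vec d => Md (v - m) :=
    hMdm.comp (measurable_const.sub measurable_id)
  rw [e1, e2, loss_eq H.hd γ H.bm H.bd hε hg hg0 v, ← lintegral_add_right _ hMd']
  refine (add_le_add_left (gain_splitg H.hd γ H.bm H.bd hε hg hg0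
    (measurableSet_RegS θ L v) v) _).trans ?_
  rw [← lintegral_add_right _ hSl']
  refine lintegral_mono_ae ?_
  filter_upwards [ae_ne H.hd1 (0 : Vec d)] with m hm
  exact hpt m hm.symm

end Pool.Agent.H82.CM
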