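import Pool.Agent.H82.CM.CombG
import Pool.Agent.H82.CM.RealG

/-!
# The operator bound at a touching point

At a touching point of `g` with the barrier `A (1+|u|²)^(-p)` only the medium background velocities contribute to growth,
with the weight `|v-z|^γ`, and the slow ones absorb.
-/

set_option autoImplicit false

open MeasureTheory Set Filter Topology Pool.Agent.H25.Kin Pool.Agent.H82.BK
open scoped ENNReal

namespace Pool.Agent.H82.CM

variable {d : ℕ}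

theorem op_bound {γ s : ℝ} (hd : 2 ≤ d) (hs : s ∈ Ioo (0 : ℝ) 1) (h0 : 0 ≤ γ + 2 * s)
    (h2 : γ + 2 * s ≤ 2) {b : ℝ → ℝ} (hb : IsKernel d s b) {p : ℕ}
    (hp : (d : ℝ) + γ + 4 ≤ 2 * p) :
    ∃ K κ δ a₀ L : ℝ, 0 ≤ K ∧ 0 < κ ∧ 0 < δ ∧ δ ≤ 1 ∧ 1 ≤ a₀ ∧ 1 ≤ L ∧
    ∀ g : Vec d → ℝ, Nice g → (∀ u, 0 ≤ g u) → ∀ v : Vec d,
      (∀ u, g u * (1 + nsq u) ^ p ≤ g v * (1 + nsq v) ^ p) →
      boltzQ γ b g v + κ * g v * ∫ z in {z | SlowR δ a₀ v z}, g z * len (v - z) ^ γ ≤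
        K * g v * ∫ z in {z | MedR δ a₀ L v z}, g z * len (v - z) ^ γ := by
  obtain ⟨C, Ca, cb, HL⟩ := exists_hypL hd hs.1 hs.2 h0 h2 hb
  have H := HL.H
  obtain ⟨K, κ, δ, a₀, L, ε₀, hK, hκ, hδ, hδ1, ha₀, hL, hε₀, hgl⟩ := gain_le_lossg HL hp
  refine ⟨K, κ, δ, a₀, L, hK, hκ, hδ, hδ1, ha₀, hL, fun g hg hg0 v hv => ?_⟩
  have hgv := hg0 v
  have hint := freq_integrable hd H.g1 H.g2 hg v
  have hnn : ∀ z, 0 ≤ g z * len (v - z) ^ γ := fun z =>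
    mul_nonneg (hg0 z) (Real.rpow_nonneg (len_nonneg _) _)
  have key : ∀ (c : ℝ), 0 ≤ c → ∀ S : Set (Vec d),
      ∫⁻ z in S, ENNReal.ofReal (c * g v * (g z * len (v - z) ^ γ)) =
        ENNReal.ofReal (c * g v * ∫ z in S, g z * len (v - z) ^ γ) := by
    intro c hc S
    rw [← integral_const_mul, ofReal_integral_eq_lintegral_ofReal
      ((hint.integrableOn).const_mul _)]
    exact Eventually.of_forall fun z => mul_nonneg (mul_nonneg hc hgv) (hnn z)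
  have hI : ∀ S : Set (Vec d), 0 ≤ ∫ z in S, g z * len (v - z) ^ γ := fun S =>
    integral_nonneg hnn
  have hR : 0 ≤ K * g v * ∫ z in {z | MedR δ a₀ L v z}, g z * len (v - z) ^ γ :=
    mul_nonneg (mul_nonneg hK hgv) (hI _)
  have hS : 0 ≤ κ * g v * ∫ z in {z | SlowR δ a₀ v z}, g z * len (v - z) ^ γ :=
    mul_nonneg (mul_nonneg hκ.le hgv) (hI _)
  have hlim := (boltz_tendsto H hg v).add_const
    (κ * g v * ∫ z in {z | SlowR δ a₀ v z}, g z * len (v - z) ^ γ)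
  refine le_of_tendsto hlim ?_
  filter_upwards [Ioc_mem_nhdsGT hε₀] with ε hε
  refine cut_leg H hg hg0 hε.1 v hR hS ?_
  rw [← key K hK, ← key κ hκ.le]
  exact hgl g hg.cont.measurable hg0 v hv ε hε.1 hε.2

end Pool.Agent.H82.CM
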