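import Pool.Agent.H82.CM.LowK
import Pool.Agent.H82.CM.FoldG
import Pool.Agent.H82.BK.Avg

/-!
# SlowS: slow background velocities absorb

As in `BK/Slow.lean`, but keeping the slack `c² s²` of the Povzner identity: for slow `z` the gain is at most the loss minus
`κ g(v)`, uniformly in the cut-off.
-/

set_option autoImplicit false

open MeasureTheory Set Filter Topology Pool.Agent.H25.Kin Pool.Agent.H82.BK
open scoped ENNReal

namespace Pool.Agent.H82.CM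

variable {d : ℕ}

private lemma pw_rpow_le {x r : ℝ} (hr : 4 ≤ r) (hx : 0 ≤ x) (hx1 : x ≤ 1) :
    x ^ r ≤ x ^ 4 := by
  rcases hx.eq_or_lt with h | h
  · subst h
    rw [Real.zero_rpow (by linarith)]
    norm_num
  · have := Real.rpow_le_rpow_of_exponent_ge h hx1 hr
    rwa [show (4 : ℝ) = ((4 : ℕ) : ℝ) by norm_num, Real.rpow_natCast] at this

/-- the Povzner identity with its slack -/
lemma povzner_slack {x y r : ℝ} (hr : 4 ≤ r) (hx : 0 ≤ x) (hy : 0 ≤ y) (h : x ^ 2 + y ^ 2 = 1) :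
    x ^ r * (1 + y ^ 2) + y ^ r * (1 + x ^ 2) + x ^ 2 * y ^ 2 ≤ 1 := by
  have hx1 : x ≤ 1 := by nlinarith [sq_nonneg y]
  have hy1 : y ≤ 1 := by nlinarith [sq_nonneg x]
  have h1 := pw_rpow_le hr hx hx1
  have h2 := pw_rpow_le hr hy hy1
  have h3 : x ^ r * (1 + y ^ 2) ≤ x ^ 4 * (1 + y ^ 2) :=
    mul_le_mul_of_nonneg_right h1 (by positivity)
  have h4 : y ^ r * (1 + x ^ 2) ≤ y ^ 4 * (1 + x ^ 2) :=
    mul_le_mul_of_nonneg_right h2 (by positivity)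
  have h5 : x ^ 4 * (1 + y ^ 2) + y ^ 4 * (1 + x ^ 2) = 1 - x ^ 2 * y ^ 2 := by
    have e : y ^ 2 = 1 - x ^ 2 := by linarith
    have e4 : y ^ 4 = (1 - x ^ 2) ^ 2 := by rw [← e]; ring
    rw [e4, e]; ring
  linarith

private lemma Loss_dot_le (m : Vec d) {σ : Vec d} (hσ : nsq σ = 1) :
    -1 ≤ dot (dir m) σ ∧ dot (dir m) σ ≤ 1 := by
  by_cases hm : m = 0
  · have : dot (dir m) σ = 0 := by
      unfold dir
      rw [smul_dot, hm]
      have : dot (0 : Vec d) σ = 0 := by simp [dot]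
      rw [this, mul_zero]
    rw [this]
    constructor <;> norm_num
  · exact abs_le.1 (dot_le_one (nsq_dir hm) hσ)

private lemma Loss_neg (hd : 2 ≤ d) {F : ℝ → ℝ≥0∞} (hF : Measurable F) (e : Vec d) :
    ∫⁻ σ, F (-(dot e σ)) ∂(surf d) = ∫⁻ σ, F (dot e σ) ∂(surf d) := by
  have h1 := (neg_preserving (d := d) (by omega)).lintegral_comp
    (f := fun σ => F (dot e σ)) (hF.comp (dot_cont e).measurable)
  rw [← h1]
  refine lintegral_congr fun σ => ?_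
  rw [dot_neg]

private lemma Loss_set {m : Vec d} (hm : m ≠ 0) :
    {σ : Vec d | 0 < dot m σ} = {σ : Vec d | 0 < dot (dir m) σ} := by
  ext σ
  show 0 < dot m σ ↔ 0 < dot (dir m) σ
  rw [← co_eq]
  unfold co
  exact ⟨fun h => div_pos h (len_pos hm), fun h => by
    have := mul_pos h (len_pos hm)
    rwa [div_mul_cancel₀ _ (len_pos hm).ne'] at this⟩

private lemma Loss_pow (hd : 2 ≤ d) {c a : ℝ} (hc : 0 < c) (γ : ℝ) :
    c ^ (-2 - γ) * c ^ (a + (d : ℝ) + γ) = c ^ (d - 2) * c ^ a := by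
  rw [← Real.rpow_natCast c (d - 2), ← Real.rpow_add hc, ← Real.rpow_add hc]
  congr 1
  rw [Nat.cast_sub hd]
  push_cast
  ring

theorem slow_integralg (hd : 2 ≤ d) (γ : ℝ) {b : ℝ → ℝ} (hb : Measurable b) {C β : ℝ}
    (hC : AngBound b C β) {ε : ℝ} (hε : 0 < ε) {p : ℕ} (hp : (d : ℝ) + γ + 4 ≤ 2 * p)
    (hpov : ∀ x y r : ℝ, 4 ≤ r → 0 ≤ x → 0 ≤ y → x ^ 2 + y ^ 2 = 1 →
      x ^ r * (1 + y ^ 2) + y ^ r * (1 + x ^ 2) + x ^ 2 * y ^ 2 ≤ 1) {m : Vec d} (hm : m ≠ 0) :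
    (∫⁻ σ in {σ : Vec d | 0 < dot m σ}, ENNReal.ofReal (Kn d γ (bt b ε) (co m σ) *
      (co m σ ^ (2 * p) * (1 + (1 - co m σ ^ 2)))) ∂(surf d)) +
    (∫⁻ σ in {σ : Vec d | 0 < dot m σ}, ENNReal.ofReal (Kn d γ (fun x => bt b ε (-x)) (co m σ) *
      (co m σ ^ (2 * p) * (1 + (1 - co m σ ^ 2)))) ∂(surf d)) +
    (∫⁻ σ, ENNReal.ofReal (bt b ε (dot (dir m) σ) * ((1 - dot (dir m) σ ^ 2) / 4)) ∂(surf d)) ≤
      BB b ε (dir m) := by
  set r : ℝ := 2 * p - d - γ with hr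
  have hr4 : 4 ≤ r := by rw [hr]; linarith
  -- the angular weight
  let A : ℝ → ℝ := fun x => Real.sqrt ((1 + x) / 2) ^ r * (1 + (1 - x) / 2)
  have hA : Measurable A := by
    refine Measurable.mul ?_ ?_
    · refine Measurable.pow_const ?_ r
      exact (Real.continuous_sqrt.comp (by fun_prop)).measurable
    · exact (by fun_prop : Continuous fun x : ℝ => (1 + (1 - x) / 2)).measurable
  have key : ∀ (B : ℝ → ℝ), Measurable B → B (-1) * A (-1) = 0 →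
      ∫⁻ σ in {σ : Vec d | 0 < dot m σ}, ENNReal.ofReal (Kn d γ B (co m σ) *
        (co m σ ^ (2 * p) * (1 + (1 - co m σ ^ 2)))) ∂(surf d) =
      ∫⁻ σ, ENNReal.ofReal (B (dot (dir m) σ) * A (dot (dir m) σ)) ∂(surf d) := by
    intro B hB hB1
    have hβ : Measurable fun x : ℝ => ENNReal.ofReal (B x * A x) := (hB.mul hA).ennreal_ofReal
    rw [← half_angle hd (nsq_dir hm) hβ (by rw [hB1, ENNReal.ofReal_zero]), Loss_set hm]
    refine setLIntegral_congr_fun (by rw [← Loss_set hm]; exact measurableSet_half m) ?_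
    intro σ hσ
    have hc : 0 < dot (dir m) σ := hσ
    simp only
    rw [co_eq]
    set c := dot (dir m) σ with hcdef
    have hAc : A (2 * c ^ 2 - 1) = c ^ r * (1 + (1 - c ^ 2)) := by
      show Real.sqrt ((1 + (2 * c ^ 2 - 1)) / 2) ^ r * (1 + (1 - (2 * c ^ 2 - 1)) / 2) = _
      have e1 : (1 + (2 * c ^ 2 - 1)) / 2 = c ^ 2 := by ring
      rw [e1, Real.sqrt_sq hc.le]
      ring
    have h2 := Loss_pow (a := r) hd hc γ
    have h3 : (0 : ℝ) ≤ 2 ^ (d - 1) * c ^ (d - 2) := by positivity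
    have h4 : c ^ (2 * p) = c ^ (r + (d : ℝ) + γ) := by
      rw [← Real.rpow_natCast c (2 * p)]
      congr 1
      rw [hr]
      push_cast
      ring
    rw [← ENNReal.ofReal_mul h3, hAc]
    congr 1
    unfold Kn
    rw [h4]
    linear_combination (2 ^ (d - 1) * B (2 * c ^ 2 - 1) * (1 + (1 - c ^ 2))) * h2
  have hA1 : A (-1) = 0 := by
    show Real.sqrt ((1 + (-1)) / 2) ^ r * (1 + (1 - (-1)) / 2) = 0
    have e1 : ((1 : ℝ) + (-1)) / 2 = 0 := by norm_num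
    rw [e1, Real.sqrt_zero, Real.zero_rpow (by linarith), zero_mul]
  have hmb := measurable_bt hb ε
  rw [key (bt b ε) hmb (by rw [hA1, mul_zero]),
    key (fun x => bt b ε (-x)) (hmb.comp measurable_neg) (by rw [hA1, mul_zero])]
  have hdm := (dot_cont (dir m)).measurable
  -- reflection in the second integral
  have hF : Measurable fun x : ℝ => ENNReal.ofReal (bt b ε x * A (-x)) :=
    (hmb.mul (hA.comp measurable_neg)).ennreal_ofReal
  have e2 : ∫⁻ σ, ENNReal.ofReal (bt b ε (-(dot (dir m) σ)) * A (dot (dir m) σ)) ∂(surf d) =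
      ∫⁻ σ, ENNReal.ofReal (bt b ε (dot (dir m) σ) * A (-(dot (dir m) σ))) ∂(surf d) := by
    rw [← Loss_neg hd hF (dir m)]
    refine lintegral_congr fun σ => ?_
    rw [neg_neg]
  have hF' : Measurable fun σ : Vec d => ENNReal.ofReal
      (bt b ε (dot (dir m) σ) * A (-(dot (dir m) σ))) := hF.comp hdm
  have hG' : Measurable fun σ : Vec d => ENNReal.ofReal
      (bt b ε (dot (dir m) σ) * ((1 - dot (dir m) σ ^ 2) / 4)) :=
    ((hmb.comp hdm).mul ((measurable_const.sub (hdm.pow_const 2)).div_const 4)).ennreal_ofReal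
  rw [e2, ← lintegral_add_right _ hF', ← lintegral_add_right _ hG']
  unfold BB
  refine lintegral_mono_ae ?_
  filter_upwards [surf_ae] with σ hσ
  obtain ⟨h1, h2⟩ := Loss_dot_le m hσ
  set x := dot (dir m) σ with hx
  have hb0 := bt_nonneg (b := b) hC hε h1 h2
  have hX0 : 0 ≤ Real.sqrt ((1 + x) / 2) := Real.sqrt_nonneg _
  have hY0 : 0 ≤ Real.sqrt ((1 + (-x)) / 2) := Real.sqrt_nonneg _
  have hX2 : Real.sqrt ((1 + x) / 2) ^ 2 = (1 + x) / 2 := Real.sq_sqrt (by linarith)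
  have hY2 : Real.sqrt ((1 + (-x)) / 2) ^ 2 = (1 + (-x)) / 2 := Real.sq_sqrt (by linarith)
  have h5 := hpov _ _ r hr4 hX0 hY0 (by rw [hX2, hY2]; ring)
  rw [hX2, hY2] at h5
  have hAx : A x = Real.sqrt ((1 + x) / 2) ^ r * (1 + (1 + (-x)) / 2) := by
    show Real.sqrt ((1 + x) / 2) ^ r * (1 + (1 - x) / 2) = _
    rw [sub_eq_add_neg]
  have hAnx : A (-x) = Real.sqrt ((1 + (-x)) / 2) ^ r * (1 + (1 + x) / 2) := by
    show Real.sqrt ((1 + (-x)) / 2) ^ r * (1 + (1 - (-x)) / 2) = _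
    rw [sub_neg_eq_add]
  have hA0 : 0 ≤ A x := by
    rw [hAx]
    exact mul_nonneg (Real.rpow_nonneg hX0 _) (by linarith)
  have hA0' : 0 ≤ A (-x) := by
    rw [hAnx]
    exact mul_nonneg (Real.rpow_nonneg hY0 _) (by linarith)
  have hs0 : 0 ≤ (1 - x ^ 2) / 4 := by nlinarith
  rw [← ENNReal.ofReal_add (mul_nonneg hb0 hA0) (mul_nonneg hb0 hA0'), ← mul_add,
    ← ENNReal.ofReal_add (mul_nonneg hb0 (add_nonneg hA0 hA0')) (mul_nonneg hb0 hs0), ← mul_add]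
  refine ENNReal.ofReal_le_ofReal ?_
  rw [← hAx, ← hAnx] at h5
  have e7 : (1 + x) / 2 * ((1 + (-x)) / 2) = (1 - x ^ 2) / 4 := by ring
  rw [e7] at h5
  calc bt b ε x * (A x + A (-x) + (1 - x ^ 2) / 4) ≤ bt b ε x * 1 :=
        mul_le_mul_of_nonneg_left h5 hb0
    _ = bt b ε x := mul_one _

/-- the two sided bound of `|m|²` by `a` -/
private lemma slow_nsq {η δ : ℝ} (hη : 0 < η) (hδ : 0 < δ) (hδ1 : δ ≤ 1) (hδη : δ ≤ η / 6)
    {v m : Vec d} (hz : nsq (v - m) ≤ δ ^ 2 * (1 + nsq v)) (ha : 2 / η ≤ 1 + nsq v) :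
    (1 - η) * (1 + nsq v) ≤ nsq m ∧ nsq m ≤ (1 + η) * (1 + nsq v) := by
  have hv : 0 ≤ nsq v := sq_nonneg' v
  have hzz : 0 ≤ nsq (v - m) := sq_nonneg' _
  have e : nsq m = nsq v - 2 * dot v (v - m) + nsq (v - m) := by
    rw [← nsq_sub]; congr 1; abel
  have h1 : dot v (v - m) ^ 2 ≤ (δ * (1 + nsq v)) ^ 2 := by
    refine (dot_sq_le v (v - m)).trans ?_
    have : nsq v * nsq (v - m) ≤ (1 + nsq v) * (δ ^ 2 * (1 + nsq v)) :=
      mul_le_mul (by linarith) hz hzz (by linarith)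
    linarith [this, mul_comm (1 + nsq v) (δ ^ 2 * (1 + nsq v)),
      show (δ * (1 + nsq v)) ^ 2 = (1 + nsq v) * (δ ^ 2 * (1 + nsq v)) by ring]
  have h2 : |dot v (v - m)| ≤ δ * (1 + nsq v) := abs_le_of_sq_le_sq h1 (by positivity)
  obtain ⟨h3, h4⟩ := abs_le.mp h2
  have h5 : δ * (1 + nsq v) ≤ η / 6 * (1 + nsq v) :=
    mul_le_mul_of_nonneg_right hδη (by linarith)
  have h6 : δ ^ 2 * (1 + nsq v) ≤ η / 6 * (1 + nsq v) :=
    mul_le_mul_of_nonneg_right (by nlinarith) (by linarith)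
  have h7 : 2 ≤ η * (1 + nsq v) := by
    rw [div_le_iff₀ hη] at ha
    linarith
  constructor <;> nlinarith

private lemma slow_point {p : ℕ} {δ₁ η δ : ℝ} (hη : 0 < η) (hδ : 0 < δ)
    (hδ1 : δ ≤ 1) (hδη : δ ≤ η / 6) (hδδ : δ ≤ δ₁)
    (hS : ∀ X Y c : ℝ, 0 < c → c ≤ 1 →
      (1 - η) * ((1 - c ^ 2) / c ^ 2) ≤ X → X ≤ (1 + η) * ((1 - c ^ 2) / c ^ 2) →
      |Y| ≤ 2 * δ₁ * Real.sqrt X →
      0 < 1 + X + Y ∧ 0 < 1 + X - Y ∧
      ((1 + X + Y) ^ p)⁻¹ + ((1 + X - Y) ^ p)⁻¹ ≤ 2 * (c ^ (2 * p) * (1 + (1 - c ^ 2))))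
    {g : Vec d → ℝ} (hg0 : ∀ u, 0 ≤ g u) {v m : Vec d}
    (hψ : ∀ u, g u * (1 + nsq u) ^ p ≤ g v * (1 + nsq v) ^ p)
    (hz : nsq (v - m) ≤ δ ^ 2 * (1 + nsq v)) (ha : 2 / η ≤ 1 + nsq v)
    {σ : Vec d} (hσ : nsq σ = 1) (hm : 0 < dot m σ) :
    g (v + hh σ m) + g (v - hh σ m) ≤
      2 * (g v * (co m σ ^ (2 * p) * (1 + (1 - co m σ ^ 2)))) := by
  obtain ⟨hm1, hm2⟩ := slow_nsq hη hδ hδ1 hδη hz ha
  have hv : 0 ≤ nsq v := sq_nonneg' v
  have hc0 := co_pos hm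
  have hc1 : co m σ ≤ 1 := co_le_one hσ
  have hc2 : co m σ ^ 2 ≤ 1 := by nlinarith
  have ha0 : 0 < 1 + nsq v := by linarith
  set a : ℝ := 1 + nsq v with hadef
  set c : ℝ := co m σ with hcdef
  have ht : 0 ≤ (1 - c ^ 2) / c ^ 2 := div_nonneg (by linarith) (by positivity)
  have hh2 : nsq (hh σ m) = nsq m * ((1 - c ^ 2) / c ^ 2) := nsq_hh hσ hm
  have hX1 : (1 - η) * ((1 - c ^ 2) / c ^ 2) ≤ nsq (hh σ m) / a := by
    rw [le_div_iff₀ ha0, hh2]
    nlinarith [mul_le_mul_of_nonneg_right hm1 ht]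
  have hX2 : nsq (hh σ m) / a ≤ (1 + η) * ((1 - c ^ 2) / c ^ 2) := by
    rw [div_le_iff₀ ha0, hh2]
    nlinarith [mul_le_mul_of_nonneg_right hm2 ht]
  have hX0 : 0 ≤ nsq (hh σ m) / a := div_nonneg (sq_nonneg' _) ha0.le
  have hY : |2 * dot (v - m) (hh σ m) / a| ≤ 2 * δ₁ * Real.sqrt (nsq (hh σ m) / a) := by
    have h1 : |2 * dot (v - m) (hh σ m) / a| ≤ 2 * δ * Real.sqrt (nsq (hh σ m) / a) := by
      apply abs_le_of_sq_le_sq _ (by positivity)
      rw [mul_pow, Real.sq_sqrt hX0, div_pow, mul_pow, div_le_iff₀ (by positivity)]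
      have h2 := dot_sq_le (v - m) (hh σ m)
      have h3 : nsq (v - m) * nsq (hh σ m) ≤ δ ^ 2 * a * nsq (hh σ m) :=
        mul_le_mul_of_nonneg_right hz (sq_nonneg' _)
      have e : (2 * δ) ^ 2 * (nsq (hh σ m) / a) * a ^ 2 = 4 * (δ ^ 2 * a * nsq (hh σ m)) := by
        field_simp
        ring
      rw [e]
      linarith
    refine h1.trans (mul_le_mul_of_nonneg_right (by linarith) (Real.sqrt_nonneg _))
  obtain ⟨hp1, hp2, hsum⟩ := hS _ _ c hc0 hc1 hX1 hX2 hY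
  have e1 : 1 + nsq (v + hh σ m) =
      a * (1 + nsq (hh σ m) / a + 2 * dot (v - m) (hh σ m) / a) := by
    rw [one_add_nsq_add v hm]
    field_simp
    ring
  have e2 : 1 + nsq (v - hh σ m) =
      a * (1 + nsq (hh σ m) / a - 2 * dot (v - m) (hh σ m) / a) := by
    rw [one_add_nsq_sub v hm]
    field_simp
    ring
  have hap : 0 < a ^ p := pow_pos ha0 p
  have g1 : g (v + hh σ m) ≤
      g v * ((1 + nsq (hh σ m) / a + 2 * dot (v - m) (hh σ m) / a) ^ p)⁻¹ := by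
    have h1 := hψ (v + hh σ m)
    rw [e1, mul_pow] at h1
    rw [← div_eq_mul_inv, le_div_iff₀ (pow_pos hp1 p)]
    have h2 : (g (v + hh σ m) *
        (1 + nsq (hh σ m) / a + 2 * dot (v - m) (hh σ m) / a) ^ p) * a ^ p ≤ g v * a ^ p := by
      linarith [h1]
    exact le_of_mul_le_mul_right h2 hap
  have g2 : g (v - hh σ m) ≤
      g v * ((1 + nsq (hh σ m) / a - 2 * dot (v - m) (hh σ m) / a) ^ p)⁻¹ := by
    have h1 := hψ (v - hh σ m)
    rw [e2, mul_pow] at h1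
    rw [← div_eq_mul_inv, le_div_iff₀ (pow_pos hp2 p)]
    have h2 : (g (v - hh σ m) *
        (1 + nsq (hh σ m) / a - 2 * dot (v - m) (hh σ m) / a) ^ p) * a ^ p ≤ g v * a ^ p := by
      linarith [h1]
    exact le_of_mul_le_mul_right h2 hap
  have h3 := mul_le_mul_of_nonneg_left hsum (hg0 v)
  rw [mul_add] at h3
  linarith

private lemma slow_meas_Kn (d : ℕ) (γ : ℝ) {β : ℝ → ℝ} (hβ : Measurable β) :
    Measurable (Kn d γ β) := by
  unfold Kn
  exact ((measurable_const.mul (measurable_id.pow_const _))).mul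
    (hβ.comp (by fun_prop))

private lemma slow_part (hd : 1 ≤ d) (γ : ℝ) {p : ℕ} {g : Vec d → ℝ} (hg : Measurable g)
    (hg0 : ∀ u, 0 ≤ g u) {v m : Vec d} (hm : m ≠ 0) {β : ℝ → ℝ} (hβ : Measurable β)
    (hpt : ∀ σ : Vec d, nsq σ = 1 → 0 < dot m σ → g (v + hh σ m) + g (v - hh σ m) ≤
      2 * (g v * (co m σ ^ (2 * p) * (1 + (1 - co m σ ^ 2))))) :
    ∫⁻ σ in {σ : Vec d | 0 < dot m σ},
        ENNReal.ofReal (Kn d γ β (co m σ) * g (v + hh σ m)) ∂(surf d) ≤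
      ENNReal.ofReal (g v) * ∫⁻ σ in {σ : Vec d | 0 < dot m σ}, ENNReal.ofReal (Kn d γ β (co m σ) *
        (co m σ ^ (2 * p) * (1 + (1 - co m σ ^ 2)))) ∂(surf d) := by
  have hK : Measurable fun x => ENNReal.ofReal (Kn d γ β x) :=
    (slow_meas_Kn d γ hβ).ennreal_ofReal
  have hG : Measurable fun h : Vec d => ENNReal.ofReal (g (v + h)) :=
    (hg.comp (measurable_const.add measurable_id)).ennreal_ofReal
  have hW : Measurable fun x : ℝ => ENNReal.ofReal (x ^ (2 * p) * (1 + (1 - x ^ 2))) := by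
    apply Measurable.ennreal_ofReal
    fun_prop
  have hR : Measurable fun x : ℝ => ENNReal.ofReal (g v) *
      ENNReal.ofReal (x ^ (2 * p) * (1 + (1 - x ^ 2))) := hW.const_mul _
  have key := refl_avg hd hm hK hG hR (fun σ hσ hm' => by
    have h1 := hpt σ hσ hm'
    have e : v + -(hh σ m) = v - hh σ m := by abel
    rw [e, ← ENNReal.ofReal_add (hg0 _) (hg0 _), ← ENNReal.ofReal_mul (hg0 v)]
    have h2 : (2 : ℝ≥0∞) = ENNReal.ofReal 2 := by simp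
    rw [h2, ← ENNReal.ofReal_mul (by norm_num)]
    exact ENNReal.ofReal_le_ofReal h1)
  calc ∫⁻ σ in {σ : Vec d | 0 < dot m σ},
        ENNReal.ofReal (Kn d γ β (co m σ) * g (v + hh σ m)) ∂(surf d)
      = ∫⁻ σ in {σ : Vec d | 0 < dot m σ},
        ENNReal.ofReal (Kn d γ β (co m σ)) * ENNReal.ofReal (g (v + hh σ m)) ∂(surf d) := by
        refine lintegral_congr fun σ => ?_
        rw [ENNReal.ofReal_mul' (hg0 _)]
    _ ≤ _ := key
    _ = ENNReal.ofReal (g v) * ∫⁻ σ in {σ : Vec d | 0 < dot m σ},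
        ENNReal.ofReal (Kn d γ β (co m σ)) *
          ENNReal.ofReal (co m σ ^ (2 * p) * (1 + (1 - co m σ ^ 2))) ∂(surf d) := by
        rw [← lintegral_const_mul' _ _ ENNReal.ofReal_ne_top]
        refine lintegral_congr fun σ => ?_
        ring
    _ ≤ _ := by
        refine mul_le_mul_right ?_ _
        refine lintegral_mono_ae (ae_restrict_of_ae ?_)
        filter_upwards [surf_ae (d := d)] with σ hσ
        have hc : co m σ ^ 2 ≤ 1 := by
          rw [co_eq]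
          have := dot_le_one (nsq_dir hm) hσ
          rw [← sq_abs]
          nlinarith [abs_nonneg (dot (dir m) σ)]
        have hw : 0 ≤ co m σ ^ (2 * p) * (1 + (1 - co m σ ^ 2)) := by
          have e : co m σ ^ (2 * p) = (co m σ ^ 2) ^ p := pow_mul _ _ _
          rw [e]
          exact mul_nonneg (by positivity) (by linarith)
        exact (ENNReal.ofReal_mul' (p := Kn d γ β (co m σ)) hw).ge


/-- the size of `m` for slow `z` -/
lemma slow_size {δ η a₀ : ℝ} (hη : 0 < η) (hδ : 0 < δ) (hδ1 : δ ≤ 1) (hδη : δ ≤ η / 6)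
    (ha : 2 / η ≤ a₀) {v m : Vec d} (h : SlowR δ a₀ v (v - m)) :
    (1 - η) * (1 + nsq v) ≤ nsq m ∧ nsq m ≤ (1 + η) * (1 + nsq v) :=
  slow_nsq hη hδ hδ1 hδη h.2 (ha.trans h.1)

theorem slow_boundg {γ s : ℝ} {b : ℝ → ℝ} {C Ca cb : ℝ} (HL : HypL d γ s b C Ca cb) {p : ℕ}
    (hp : (d : ℝ) + γ + 4 ≤ 2 * p) : ∃ δ > 0, δ ≤ 1 ∧ ∃ a₀ : ℝ, 1 ≤ a₀ ∧ ∃ κ : ℝ, 0 < κ ∧
    ∀ g : Vec d → ℝ, Measurable g → (∀ u, 0 ≤ g u) → ∀ v : Vec d,
      (∀ u, g u * (1 + nsq u) ^ p ≤ g v * (1 + nsq v) ^ p) →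
      ∀ m : Vec d, m ≠ 0 → SlowR δ a₀ v (v - m) → ∀ ε : ℝ, 0 < ε → ε ≤ 1 / 64 →
      ∀ S : Set (Vec d × Vec d),
      GMg γ b ε g S v m + GEg γ b ε g S v m + ENNReal.ofReal (κ * g v) ≤
        ENNReal.ofReal (g v) * BB b ε (dir m) := by
  have H := HL.H
  obtain ⟨δ₁, hδ₁, η, hη, hη2, hS⟩ := slow_ineq p
  obtain ⟨κ, hκ, hslack⟩ := slack_low HL
  refine ⟨min δ₁ (min 1 (η / 6)), by positivity,
    (min_le_right _ _).trans (min_le_left _ _), 2 / η, ?_, κ, hκ, ?_⟩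
  · rw [le_div_iff₀ hη]; linarith
  intro g hg hg0 v hψ m hm hsl ε hε hε1 S
  have hpt : ∀ σ : Vec d, nsq σ = 1 → 0 < dot m σ → g (v + hh σ m) + g (v - hh σ m) ≤
      2 * (g v * (co m σ ^ (2 * p) * (1 + (1 - co m σ ^ 2)))) := fun σ hσ hmσ =>
    slow_point hη (by positivity) ((min_le_right _ _).trans (min_le_left _ _))
      ((min_le_right _ _).trans (min_le_right _ _)) (min_le_left _ _) hS hg0 hψ hsl.2 hsl.1 hσ hmσ
  have hbt : Measurable (bt b ε) := measurable_bt H.bm ε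
  have h1 := slow_part (γ := γ) (p := p) H.hd1 hg hg0 hm hbt hpt
  have h2 := slow_part (γ := γ) (p := p) (β := fun x => bt b ε (-x)) H.hd1 hg hg0 hm
    (hbt.comp measurable_neg) hpt
  have h3 : GMg γ b ε g S v m ≤ ∫⁻ σ in {σ : Vec d | 0 < dot m σ},
        ENNReal.ofReal (Kn d γ (bt b ε) (co m σ) * g (v + hh σ m)) ∂(surf d) := by
    unfold GMg
    refine lintegral_mono fun σ => ?_
    dsimp only
    split_ifs
    · exact le_rfl
    · exact bot_le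
  have h3' : GEg γ b ε g S v m ≤ ∫⁻ σ in {σ : Vec d | 0 < dot m σ},
        ENNReal.ofReal (Kn d γ (fun x => bt b ε (-x)) (co m σ) * g (v + hh σ m)) ∂(surf d) := by
    unfold GEg
    refine lintegral_mono fun σ => ?_
    dsimp only
    split_ifs
    · exact bot_le
    · exact le_rfl
  have h4 := slow_integralg H.hd γ H.bm H.bd hε hp
    (fun x y r h4 hx hy h => povzner_slack h4 hx hy h) hm
  have h6 := hslack ε hε hε1 (dir m) (nsq_dir hm)
  calc GMg γ b ε g S v m + GEg γ b ε g S v m + ENNReal.ofReal (κ * g v)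
      ≤ _ + _ + ENNReal.ofReal (g v) *
        ∫⁻ σ, ENNReal.ofReal (bt b ε (dot (dir m) σ) * ((1 - dot (dir m) σ ^ 2) / 4)) ∂(surf d) := by
        refine add_le_add (add_le_add (h3.trans h1) (h3'.trans h2)) ?_
        rw [mul_comm κ, ENNReal.ofReal_mul (hg0 v)]
        exact mul_le_mul_right h6 _
    _ ≤ _ := by
        rw [← mul_add, ← mul_add]
        exact mul_le_mul_right h4 _

end Pool.Agent.H82.CM
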