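import Pool.Agent.H25.Kin.Cap2

/-!
# Shell: a lower bound of the surface measure of spherical shells

`surf {u ≤ 1 - k·σ ≤ 32u} ≥ c u^((d-1)/2)`, uniformly in the unit vector `k` and `0 < u ≤ 1/64`: the cone over the shell
contains the image, under the dilation by `√u` orthogonally to `k`, of a ball of radius `1/16` around
`(3/16) k + (7/8) e`, `e ⊥ k`.
-/

set_option autoImplicit false

open MeasureTheory Set Filter Topology Pool.Agent.H25.Kin
open scoped ENNReal

namespace Pool.Agent.H82.CM

variable {d : ℕ}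

/-- a unit vector orthogonal to `k` -/
lemma exists_perp (hd : 2 ≤ d) {k : Vec d} (hk : nsq k = 1) : ∃ e : Vec d, nsq e = 1 ∧ dot k e = 0 := by
  classical
  have hk0 : ∃ i, k i ≠ 0 := by
    by_contra h
    push Not at h
    have : nsq k = 0 := by
      unfold nsq
      exact Finset.sum_eq_zero fun i _ => by rw [h i]; norm_num
    rw [this] at hk
    norm_num at hk
  obtain ⟨i, hi⟩ := hk0
  have hnt : Nontrivial (Fin d) := Fin.nontrivial_iff_two_le.2 hd
  obtain ⟨j, hj⟩ := exists_ne i
  set w : Vec d := k j • Pi.single i (1 : ℝ) - k i • Pi.single j (1 : ℝ) with hw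
  have hs : ∀ (u : Vec d) (l : Fin d), dot u (Pi.single l (1 : ℝ)) = u l := by
    intro u l
    unfold dot
    rw [Finset.sum_eq_single l]
    · simp
    · intro b _ hb
      rw [Pi.single_eq_of_ne hb, mul_zero]
    · intro h
      exact absurd (Finset.mem_univ l) h
  have hkw : dot k w = 0 := by
    rw [hw, dot_sub, dot_smul, dot_smul, hs, hs]
    ring
  have hww : nsq w = k i ^ 2 + k j ^ 2 := by
    rw [← dot_self]
    conv_lhs => rw [hw]
    rw [dot_sub, dot_smul, dot_smul, ← hw, hs, hs]
    have e1 : w i = k j := by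
      rw [hw]
      simp [Pi.single_eq_of_ne hj.symm]
    have e2 : w j = -k i := by
      rw [hw]
      simp [Pi.single_eq_of_ne hj]
    rw [e1, e2]
    ring
  have hpos : 0 < nsq w := by
    rw [hww]
    have : 0 < k i ^ 2 := by positivity
    positivity
  have hl : 0 < Real.sqrt (nsq w) := Real.sqrt_pos.2 hpos
  refine ⟨(Real.sqrt (nsq w))⁻¹ • w, ?_, ?_⟩
  · rw [nsq_smul, inv_pow, Real.sq_sqrt hpos.le]
    exact inv_mul_cancel₀ hpos.ne'
  · rw [dot_smul, hkw, mul_zero]

private lemma shell_real {t y l u : ℝ} (hu : 0 < u) (hu1 : u ≤ 1 / 64) (ht : 1 / 8 ≤ t)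
    (ht1 : t ≤ 1 / 4) (hy : 42 / 64 ≤ y) (hy1 : y ≤ 1) (hl : 0 ≤ l) (hl2 : l ^ 2 = u * y + t ^ 2) :
    u ≤ 1 - l⁻¹ * t ∧ 1 - l⁻¹ * t ≤ 32 * u := by
  have hlt : t ≤ l := by
    by_contra h
    push Not at h
    nlinarith [mul_pos hu (by linarith : 0 < y)]
  have hl0 : 0 < l := by linarith
  have e : 1 - l⁻¹ * t = u * y / (l * (l + t)) := by
    field_simp
    nlinarith
  have h1 : 1 / 32 ≤ l * (l + t) := by nlinarith
  have h2 : l * (l + t) ≤ 10 / 64 := by nlinarith
  have h0 : 0 < l * (l + t) := by positivity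
  rw [e]
  constructor
  · rw [le_div_iff₀ h0]
    exact mul_le_mul_of_nonneg_left (by linarith) hu.le
  · rw [div_le_iff₀ h0]
    nlinarith

theorem shell_low (hd : 2 ≤ d) : ∃ c : ℝ, 0 < c ∧ ∀ k : Vec d, nsq k = 1 → ∀ u : ℝ, 0 < u →
    u ≤ 1 / 64 → ENNReal.ofReal (c * u ^ (((d : ℝ) - 1) / 2)) ≤
      surf d {σ | u ≤ 1 - dot k σ ∧ 1 - dot k σ ≤ 32 * u} := by
  have hd1 : 1 ≤ d := by omega
  set B : Set (Vec d) := {z | nsq z < 1 / 256} with hB
  have hBo : IsOpen B := isOpen_lt continuous_sq continuous_const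
  have hB0 : (0 : Vec d) ∈ B := by
    show nsq (0 : Vec d) < 1 / 256
    have : nsq (0 : Vec d) = 0 := by
      unfold nsq
      exact Finset.sum_eq_zero fun i _ => by simp
    rw [this]; norm_num
  have hBpos : 0 < (volume : Measure (Vec d)) B := hBo.measure_pos _ ⟨0, hB0⟩
  have hBfin : (volume : Measure (Vec d)) B < ⊤ := by
    have hsub : B ⊆ Metric.closedBall 0 2 := by
      intro z hz
      rw [mem_closedBall_zero_iff]
      have h1 := norm_sq_le_sq z
      have h2 : nsq z < 1 / 256 := hz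
      nlinarith [norm_nonneg z]
    exact (measure_mono hsub).trans_lt (isCompact_closedBall _ _).measure_lt_top
  refine ⟨d * ((volume : Measure (Vec d)) B).toReal, ?_, fun k hk u hu hu1 => ?_⟩
  · have h1 : 0 < ((volume : Measure (Vec d)) B).toReal := ENNReal.toReal_pos hBpos.ne' hBfin.ne
    have h2 : (0 : ℝ) < d := by exact_mod_cast hd1
    positivity
  obtain ⟨e, he, hke⟩ := exists_perp hd hk
  set a := Real.sqrt u with ha
  have ha0 : 0 < a := Real.sqrt_pos.2 hu
  have ha2 : a ^ 2 = u := Real.sq_sqrt hu.le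
  set p : Vec d := (3 / 16 : ℝ) • k + (7 / 8 : ℝ) • e with hp
  set T : Set (Vec d) := (fun z => z - p) ⁻¹' B with hT
  have hTm : MeasurableSet T := hBo.measurableSet.preimage (measurable_id.sub measurable_const)
  have hTo : IsOpen T := hBo.preimage (continuous_id.sub continuous_const)
  have hTv : (volume : Measure (Vec d)) T = (volume : Measure (Vec d)) B := by
    have h5 : T = (fun z => z + (-p)) ⁻¹' B := by
      rw [hT]; ext z; simp only [mem_preimage, sub_eq_add_neg]
    rw [h5]
    exact measure_preimage_add_right (volume : Measure (Vec d)) (-p) B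
  have hSm : MeasurableSet {σ : Vec d | u ≤ 1 - dot k σ ∧ 1 - dot k σ ≤ 32 * u} :=
    ((isClosed_le continuous_const (continuous_const.sub (dot_cont k))).inter
      (isClosed_le (continuous_const.sub (dot_cont k)) continuous_const)).measurableSet
  have h1 : surf d {σ | u ≤ 1 - dot k σ ∧ 1 - dot k σ ≤ 32 * u} =
      ∫⁻ σ, ({σ : Vec d | u ≤ 1 - dot k σ ∧ 1 - dot k σ ≤ 32 * u}).indicator
        (fun _ => (1 : ℝ≥0∞)) σ ∂(surf d) := by
    rw [lintegral_indicator_const hSm, one_mul]
  have hmi : Measurable (({σ : Vec d | u ≤ 1 - dot k σ ∧ 1 - dot k σ ≤ 32 * u}).indicator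
      (fun _ => (1 : ℝ≥0∞))) := measurable_const.indicator hSm
  rw [h1, surf_formula hd1 hmi]
  have hbm : MeasurableSet {z : Vec d | nsq z < 1} :=
    (isOpen_lt continuous_sq continuous_const).measurableSet
  -- the image lies in the cone
  have himg : ∀ z ∈ dil k a '' T, nsq z < 1 ∧ (u ≤ 1 - dot k ((len z)⁻¹ • z) ∧
      1 - dot k ((len z)⁻¹ • z) ≤ 32 * u) := by
    rintro z ⟨z', hz', rfl⟩
    have hz1 : nsq (z' - p) < 1 / 256 := hz'
    set h := z' - p with hh
    have hz'e : z' = p + h := by rw [hh]; abel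
    set t := dot k z' with ht
    have hkh : dot k h ^ 2 ≤ nsq h := by
      have := dot_sq_le k h
      rwa [hk, one_mul] at this
    have heh : dot e h ^ 2 ≤ nsq h := by
      have := dot_sq_le e h
      rwa [he, one_mul] at this
    have hkh1 : |dot k h| ≤ 1 / 16 := abs_le_of_sq_le_sq (by nlinarith) (by norm_num)
    have heh1 : |dot e h| ≤ 1 / 16 := abs_le_of_sq_le_sq (by nlinarith) (by norm_num)
    obtain ⟨k1, k2⟩ := abs_le.1 hkh1
    obtain ⟨e1, e2⟩ := abs_le.1 heh1
    have htv : t = 3 / 16 + dot k h := by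
      rw [ht, hz'e, dot_add, hp, dot_add, dot_smul, dot_smul, dot_self, hk, hke]
      ring
    have hpp : nsq p = 9 / 256 + 49 / 64 := by
      rw [hp, nsq_add, nsq_smul, nsq_smul, smul_dot, dot_smul, hk, he, hke]
      norm_num
    have hph : dot p h = 3 / 16 * dot k h + 7 / 8 * dot e h := by
      rw [dot_comm, hp, dot_add, dot_smul, dot_smul, dot_comm h k, dot_comm h e]
    have hzn : nsq z' = 9 / 256 + 49 / 64 + 2 * (3 / 16 * dot k h + 7 / 8 * dot e h) + nsq h := by
      rw [hz'e, nsq_add, hpp, hph]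
    set y := nsq z' - t ^ 2 with hy
    have hyv : y = 49 / 64 + 7 / 4 * dot e h + (nsq h - dot k h ^ 2) := by
      rw [hy, hzn, htv]; ring
    have hy1 : 42 / 64 ≤ y := by rw [hyv]; linarith
    have hy2 : y ≤ 1 := by
      rw [hyv]
      have := sq_nonneg (dot k h)
      linarith
    have ht1 : 1 / 8 ≤ t := by rw [htv]; linarith
    have ht2 : t ≤ 1 / 4 := by rw [htv]; linarith
    have hdk : dot k (dil k a z') = t := by
      rw [dil_apply, dot_add, dot_smul, dot_smul, dot_self, hk, ← ht]; ring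
    have hnz : nsq (dil k a z') = u * y + t ^ 2 := by
      rw [dil_apply, nsq_add, nsq_smul, nsq_smul, smul_dot, dot_smul, hk, dot_comm z' k, ← ht,
        hy, ← ha2]
      ring
    have hl := len_nonneg (dil k a z')
    have hl2 : len (dil k a z') ^ 2 = u * y + t ^ 2 := by rw [len_sq, hnz]
    refine ⟨?_, ?_⟩
    · rw [hnz]
      nlinarith
    · rw [dot_smul, hdk]
      exact shell_real hu hu1 ht1 ht2 hy1 hy2 hl hl2
  have hDm : MeasurableSet (dil k a '' T) := by
    have hdet : LinearMap.det (dil k a) ≠ 0 := by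
      rw [det_dil hd1 hk ha0]
      positivity
    have hinj : Function.Injective (dil k a) :=
      (LinearMap.equivOfDetNeZero (dil k a) hdet).injective
    exact hTm.image_of_continuousOn_injOn
      (dil k a).continuous_of_finiteDimensional.continuousOn hinj.injOn
  have h2 : (volume : Measure (Vec d)) (dil k a '' T) ≤ ∫⁻ z in {z : Vec d | nsq z < 1},
      ({σ : Vec d | u ≤ 1 - dot k σ ∧ 1 - dot k σ ≤ 32 * u}).indicator
        (fun _ => (1 : ℝ≥0∞)) ((len z)⁻¹ • z) := by
    rw [← lintegral_indicator hbm]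
    calc (volume : Measure (Vec d)) (dil k a '' T)
        = ∫⁻ z, (dil k a '' T).indicator (fun _ => (1 : ℝ≥0∞)) z := by
          rw [lintegral_indicator_const hDm, one_mul]
      _ ≤ _ := by
          refine lintegral_mono fun z => ?_
          by_cases hz : z ∈ dil k a '' T
          · obtain ⟨h3, h4⟩ := himg z hz
            rw [indicator_of_mem hz, indicator_of_mem (by exact h3), indicator_of_mem (by exact h4)]
          · rw [indicator_of_notMem hz]; exact zero_le
  rw [Measure.addHaar_image_linearMap, det_dil hd1 hk ha0, abs_of_pos (pow_pos ha0 _), hTv] at h2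
  have ea : a ^ (d - 1) = u ^ (((d : ℝ) - 1) / 2) := by
    rw [ha, Real.sqrt_eq_rpow, ← Real.rpow_natCast, ← Real.rpow_mul hu.le]
    congr 1
    rw [Nat.cast_sub hd1]
    push_cast; ring
  calc ENNReal.ofReal (d * ((volume : Measure (Vec d)) B).toReal * u ^ (((d : ℝ) - 1) / 2))
      = d * (ENNReal.ofReal (a ^ (d - 1)) * (volume : Measure (Vec d)) B) := by
        rw [← ea, ENNReal.ofReal_mul (by positivity), ENNReal.ofReal_mul (by positivity),
          ENNReal.ofReal_natCast, ENNReal.ofReal_toReal hBfin.ne]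
        ring
    _ ≤ _ := by gcongr

end Pool.Agent.H82.CM
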